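import Pool.Agent.Lib_MP_8c2fb0_tri.Inj

/-!
# Triangular substitutions
-/

open MvPolynomial

namespace Pool.Agent.Tri

open Pool.Agent.Sph

section Low

variable {k : Type*} [Field k]

/-- the height of a monomial for the weights `w` -/
def hgt (w : Fin 3 → ℕ) (α : Fin 3 →₀ ℕ) : ℕ := α 0 * w 0 + α 1 * w 1 + α 2 * w 2

theorem hgt_add (w : Fin 3 → ℕ) (α β : Fin 3 →₀ ℕ) : hgt w (α + β) = hgt w α + hgt w β := by
  unfold hgt
  simp only [Finsupp.add_apply]
  ring

/-- `F` is `c` times the monomial `α` plus monomials of smaller height -/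
def Low (w : Fin 3 → ℕ) (F : MvPolynomial (Fin 3) k) (α : Fin 3 →₀ ℕ) (c : k) : Prop :=
  ∀ β, coeff β (F - monomial α c) ≠ 0 → hgt w β < hgt w α

variable {w : Fin 3 → ℕ}

theorem Low.one : Low w (1 : MvPolynomial (Fin 3) k) 0 1 := by
  intro β hβ
  have : (1 : MvPolynomial (Fin 3) k) - monomial 0 1 = 0 := by
    rw [sub_eq_zero]; rfl
  rw [this, coeff_zero] at hβ
  exact absurd rfl hβ

theorem low_aux {F : MvPolynomial (Fin 3) k} {α α' : Fin 3 →₀ ℕ} {c : k} {β : Fin 3 →₀ ℕ}
    (h : ∀ β, coeff β F ≠ 0 → hgt w β < hgt w α)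
    (hβ : coeff β (monomial α' c * F) ≠ 0) : hgt w β < hgt w (α + α') := by
  rw [coeff_monomial_mul'] at hβ
  split_ifs at hβ with h1
  · have h2 := h _ (right_ne_zero_of_mul hβ)
    have h3 : β = α' + (β - α') := (add_tsub_cancel_of_le h1).symm
    rw [h3, hgt_add, hgt_add]
    omega
  · exact absurd rfl hβ

theorem Low.mul {F F' : MvPolynomial (Fin 3) k} {α α' : Fin 3 →₀ ℕ} {c c' : k}
    (h : Low w F α c) (h' : Low w F' α' c') : Low w (F * F') (α + α') (c * c') := by
  intro β hβ
  have e : F * F' - monomial (α + α') (c * c') = monomial α c * (F' - monomial α' c') +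
      monomial α' c' * (F - monomial α c) + (F - monomial α c) * (F' - monomial α' c') := by
    have h1 : (monomial (α + α') (c * c') : MvPolynomial (Fin 3) k) =
      monomial α c * monomial α' c' := by rw [monomial_mul]
    rw [h1]
    ring
  rw [e, coeff_add, coeff_add] at hβ
  by_cases h1 : coeff β (monomial α c * (F' - monomial α' c')) = 0
  · by_cases h2 : coeff β (monomial α' c' * (F - monomial α c)) = 0
    · rw [h1, h2, zero_add, zero_add, coeff_mul] at hβ
      obtain ⟨x, hx, hx'⟩ := Finset.exists_ne_zero_of_sum_ne_zero hβ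
      rw [Finset.HasAntidiagonal.mem_antidiagonal] at hx
      have h3 := h _ (left_ne_zero_of_mul hx')
      have h4 := h' _ (right_ne_zero_of_mul hx')
      rw [← hx, hgt_add, hgt_add]
      omega
    · exact low_aux h h2
  · have := low_aux h' h1
    rwa [add_comm α' α] at this

theorem Low.pow {F : MvPolynomial (Fin 3) k} {α : Fin 3 →₀ ℕ} {c : k} (h : Low w F α c) (n : ℕ) :
    Low w (F ^ n) (n • α) (c ^ n) := by
  induction n with
  | zero =>
    rw [pow_zero, zero_smul, pow_zero]
    exact Low.one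
  | succ n ih =>
    rw [pow_succ, succ_nsmul, pow_succ]
    exact ih.mul h

theorem low_lin {x : Fin 3 → k} {i : Fin 3} (h : ∀ j, j ≠ i → x j ≠ 0 → w j < w i) :
    Low w (lin x) (Finsupp.single i 1) (x i) := by
  intro β hβ
  have e : lin x - monomial (Finsupp.single i 1) (x i) =
      lin (fun j => if j = i then 0 else x j) := by
    unfold lin
    have : (monomial (Finsupp.single i 1) (x i) : MvPolynomial (Fin 3) k) =
        ∑ j, C (if j = i then x i else 0) * X j := by
      rw [Finset.sum_eq_single i]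
      · rw [if_pos rfl, X, C_mul_monomial, mul_one]
      · intro j _ hj
        rw [if_neg hj, C_0, zero_mul]
      · intro h'
        exact absurd (Finset.mem_univ _) h'
    rw [this, ← Finset.sum_sub_distrib]
    refine Finset.sum_congr rfl fun j _ => ?_
    by_cases hj : j = i
    · subst hj
      simp
    · simp [hj]
  rw [e, coeff_lin] at hβ
  obtain ⟨j, -, hj⟩ := Finset.exists_ne_zero_of_sum_ne_zero hβ
  split_ifs at hj with h1 h2
  · exact absurd rfl hj
  · subst h1
    have h3 := h j h2 hj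
    have e1 : ∀ l : Fin 3, hgt w (Finsupp.single l 1) = w l := by
      intro l
      fin_cases l <;> simp [hgt]
    rw [e1, e1]
    exact h3
  · exact absurd rfl hj

theorem low_sb {G : Matrix (Fin 3) (Fin 3) k} (h : ∀ i j, j ≠ i → G i j ≠ 0 → w j < w i)
    (α : Fin 3 →₀ ℕ) : Low w (sb G (monomial α 1)) α (G 0 0 ^ α 0 * G 1 1 ^ α 1 * G 2 2 ^ α 2) := by
  have e : sb G (monomial α 1) = lin (G 0) ^ α 0 * lin (G 1) ^ α 1 * lin (G 2) ^ α 2 :=
    aeval_monomial3 (fun i => lin (G i)) α
  rw [e]
  have h1 := (((low_lin (h 0)).pow (α 0)).mul ((low_lin (h 1)).pow (α 1))).mul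
    ((low_lin (h 2)).pow (α 2))
  have h2 : α 0 • Finsupp.single 0 1 + α 1 • Finsupp.single 1 1 + α 2 • Finsupp.single 2 1 = α :=
    ex_self α
  rwa [h2] at h1

/-- **Triangular criterion** for the injectivity of `TT`. -/
theorem injective_of_triangular {G H : Matrix (Fin 3) (Fin 3) k} (w : Fin 3 → ℕ)
    (hG : ∀ i j, j ≠ i → G i j ≠ 0 → w j < w i) (hH : ∀ i j, j ≠ i → H i j ≠ 0 → w j < w i)
    (hc : ∀ i j l : ℕ, 1 + G 0 0 ^ i * G 1 1 ^ j * G 2 2 ^ l + H 0 0 ^ i * H 1 1 ^ j * H 2 2 ^ l ≠ 0) :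
    Function.Injective (TT G H) := by
  rw [injective_iff_map_eq_zero]
  intro P hP
  by_contra hne
  have hsupp : P.support.Nonempty := by
    rwa [Finset.nonempty_iff_ne_empty, Ne, support_eq_empty]
  obtain ⟨α, hα, hmax⟩ := Finset.exists_max_image P.support (hgt w) hsupp
  have hT : ∀ β : Fin 3 →₀ ℕ, coeff α (TT G H (monomial β 1)) =
      (if β = α then 1 + G 0 0 ^ α 0 * G 1 1 ^ α 1 * G 2 2 ^ α 2 +
        H 0 0 ^ α 0 * H 1 1 ^ α 1 * H 2 2 ^ α 2 else 0) ∨ hgt w α < hgt w β := by
    intro β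
    by_cases h1 : hgt w α < hgt w β
    · exact Or.inr h1
    · left
      have hz : ∀ (F : MvPolynomial (Fin 3) k) (c : k), Low w F β c →
          coeff α F = if β = α then c else 0 := by
        intro F c hF
        have h2 : coeff α (F - monomial β c) = 0 := by
          by_contra h3
          exact h1 (hF α h3)
        rw [coeff_sub, sub_eq_zero, coeff_monomial] at h2
        exact h2
      rw [TT_apply, coeff_add, coeff_add, hz _ _ (low_sb hG β), hz _ _ (low_sb hH β), coeff_monomial]
      by_cases h4 : β = α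
      · subst h4
        simp
      · simp [h4]
  have hsum : coeff α (TT G H P) = coeff α P * (1 + G 0 0 ^ α 0 * G 1 1 ^ α 1 * G 2 2 ^ α 2 +
        H 0 0 ^ α 0 * H 1 1 ^ α 1 * H 2 2 ^ α 2) := by
    conv_lhs => rw [P.as_sum, map_sum, coeff_sum]
    rw [Finset.sum_eq_single α]
    · have h1 : (monomial α (coeff α P) : MvPolynomial (Fin 3) k) = coeff α P • monomial α 1 := by
        rw [smul_monomial, smul_eq_mul, mul_one]
      rw [h1, map_smul, coeff_smul, smul_eq_mul]
      rcases hT α with h2 | h2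
      · rw [h2, if_pos rfl]
      · exact absurd h2 (lt_irrefl _)
    · intro β hβ hβα
      have h1 : (monomial β (coeff β P) : MvPolynomial (Fin 3) k) = coeff β P • monomial β 1 := by
        rw [smul_monomial, smul_eq_mul, mul_one]
      rw [h1, map_smul, coeff_smul, smul_eq_mul]
      rcases hT β with h2 | h2
      · rw [h2, if_neg hβα, mul_zero]
      · exact absurd h2 (not_lt.2 (hmax β hβ))
    · intro h'
      exact absurd hα h'
  rw [hP, coeff_zero] at hsum
  exact mul_ne_zero (mem_support_iff.1 hα) (hc _ _ _) hsum.symm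

end Low

end Pool.Agent.Tri
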