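import Pool.Agent.Lib_MP_8c2fb0_tri.Val
import Pool.Agent.Lib_MP_8c2fb0_tri.Low

/-!
# Normal forms with prescribed eigenvectors
-/

open Matrix

namespace Pool.Agent.Tri

open Pool.Agent.Sph

theorem build {A C₀ : Fin 3 → ℂ} (hAA : A ⬝ᵥ A = 0) (hCC₀ : C₀ ⬝ᵥ C₀ = 0) (hAC₀ : A ⬝ᵥ C₀ ≠ 0) :
    ∃ E E' : Matrix (Fin 3) (Fin 3) ℂ, E * E' = 1 ∧
      (∀ (O : Matrix (Fin 3) (Fin 3) ℂ) (s p : ℂ), s * s = 1 → p ≠ 0 → O * O.transpose = 1 →
        O.det = s → A ᵥ* O = (s * p ^ 2) • A → ∃ m, E * O * E' = s • sym p 0 m p⁻¹) ∧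
      (∀ (O : Matrix (Fin 3) (Fin 3) ℂ) (t q : ℂ), t * t = 1 → q ≠ 0 → O * O.transpose = 1 →
        O.det = t → C₀ ᵥ* O = (t * q⁻¹ ^ 2) • C₀ → ∃ n, E * O * E' = t • sym q n 0 q⁻¹) := by
  set C : Fin 3 → ℂ := (A ⬝ᵥ C₀)⁻¹ • C₀ with hCdef
  have hCC : C ⬝ᵥ C = 0 := by
    rw [hCdef, smul_dotProduct, dotProduct_smul, hCC₀, smul_zero, smul_zero]
  have hAC : A ⬝ᵥ C = 1 := by
    rw [hCdef, dotProduct_smul, smul_eq_mul, inv_mul_cancel₀ hAC₀]
  obtain ⟨ω, hω⟩ : ∃ ω : ℂ, ω * ω = 1 / 2 := by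
    obtain ⟨ω, hω⟩ := IsAlgClosed.exists_pow_nat_eq (1 / 2 : ℂ) (n := 2) (by norm_num)
    exact ⟨ω, by rw [← sq, hω]⟩
  set B : Fin 3 → ℂ := ω • crossProduct A C with hB
  have hBe : B = ![ω * (A 1 * C 2 - A 2 * C 1), ω * (A 2 * C 0 - A 0 * C 2),
      ω * (A 0 * C 1 - A 1 * C 0)] := by
    rw [hB, cross_apply]
    simp
  set E : Matrix (Fin 3) (Fin 3) ℂ := Matrix.of ![A, B, C] with hE
  have hEE : E * E.transpose = J := by
    simp only [dotProduct, Fin.sum_univ_three] at hAA hCC hAC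
    ext i j
    rw [Matrix.mul_apply, Fin.sum_univ_three]
    fin_cases i <;> fin_cases j
    · simp [hE, J]; linear_combination hAA
    · simp [hE, J, hBe]; ring
    · simp [hE, J]; linear_combination hAC
    · simp [hE, J, hBe]; ring
    · simp [hE, J, hBe]
      linear_combination ω * ω * (C 0 * C 0 + C 1 * C 1 + C 2 * C 2) * hAA -
        ω * ω * (A 0 * C 0 + A 1 * C 1 + A 2 * C 2 + 1) * hAC - hω
    · simp [hE, J, hBe]; ring
    · simp [hE, J]; linear_combination hAC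
    · simp [hE, J, hBe]; ring
    · simp [hE, J]; linear_combination hCC
  set E' : Matrix (Fin 3) (Fin 3) ℂ := E.transpose * J' with hE'
  have hEE' : E * E' = 1 := by rw [hE', ← mul_assoc, hEE, J_mul]
  have hE'E : E' * E = 1 := mul_eq_one_comm.1 hEE'
  have hE'J : E' * J * E'.transpose = 1 := by
    have h1 : J' * J = 1 := mul_eq_one_comm.1 J_mul
    rw [hE', transpose_mul, J'_transpose, transpose_transpose]
    calc E.transpose * J' * J * (J' * E) = E.transpose * (J' * J) * J' * E := by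
          simp only [mul_assoc]
      _ = E' * E := by rw [h1, mul_one]
      _ = 1 := hE'E
  have conj : ∀ O : Matrix (Fin 3) (Fin 3) ℂ, O * O.transpose = 1 →
      (E * O * E') * J * (E * O * E').transpose = J := by
    intro O hO
    rw [transpose_mul (E * O) E', transpose_mul E O]
    calc E * O * E' * J * (E'.transpose * (O.transpose * E.transpose)) =
        E * O * (E' * J * E'.transpose) * O.transpose * E.transpose := by
          simp only [mul_assoc]
      _ = E * (O * O.transpose) * E.transpose := by rw [hE'J, mul_one]; simp only [mul_assoc]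
      _ = J := by rw [hO, mul_one, hEE]
  have dconj : ∀ O : Matrix (Fin 3) (Fin 3) ℂ, (E * O * E').det = O.det := by
    intro O
    have h1 : E.det * E'.det = 1 := by rw [← det_mul, hEE', det_one]
    rw [det_mul, det_mul]
    linear_combination O.det * h1
  have row : ∀ (O : Matrix (Fin 3) (Fin 3) ℂ) (i : Fin 3) (x : ℂ), E i ᵥ* O = x • E i →
      (E * O * E') i = x • (1 : Matrix (Fin 3) (Fin 3) ℂ) i := by
    intro O i x hx
    rw [Matrix.mul_apply_eq_vecMul, Matrix.mul_apply_eq_vecMul, hx, smul_vecMul,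
      ← Matrix.mul_apply_eq_vecMul, hEE']
  refine ⟨E, E', hEE', ?_, ?_⟩
  · intro O s p hs hp hO hd hA
    have r := row O 0 _ hA
    exact form_low hs hp (conj _ hO) (by rw [dconj, hd]) (by rw [r]; simp) (by rw [r]; simp)
      (by rw [r]; simp)
  · intro O t q ht hq hO hd hC
    have hC' : C ᵥ* O = (t * q⁻¹ ^ 2) • C := by
      rw [hCdef, smul_vecMul, hC, smul_comm]
    have r := row O 2 _ hC'
    exact form_up ht hq (conj _ hO) (by rw [dconj, hd]) (by rw [r]; simp) (by rw [r]; simp)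
      (by rw [r]; simp)

/-- the complexification of an orthogonal matrix -/
theorem cast_orth {g : Matrix (Fin 3) (Fin 3) ℝ} (hg : g ∈ Matrix.orthogonalGroup (Fin 3) ℝ) :
    g.map Complex.ofRealHom * (g.map Complex.ofRealHom).transpose = 1 := by
  have h1 : g * g.transpose = 1 := (Matrix.mem_orthogonalGroup_iff (Fin 3) ℝ).1 hg
  rw [← transpose_map, ← Matrix.map_mul, h1]
  simp

theorem cast_det (g : Matrix (Fin 3) (Fin 3) ℝ) :
    (g.map Complex.ofRealHom).det = (g.det : ℂ) :=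
  (RingHom.map_det Complex.ofRealHom g).symm

/-- An eigenvector of an orthogonal matrix with its conjugate; the eigenvalues are inverse. -/
theorem orth_eig' (g : Matrix (Fin 3) (Fin 3) ℝ) (hg : g ∈ Matrix.orthogonalGroup (Fin 3) ℝ) :
    ((g.det : ℂ) = 1 ∨ (g.det : ℂ) = -1) ∧ ∃ (A : Fin 3 → ℂ) (c : ℂ), A ≠ 0 ∧ A ⬝ᵥ A = 0 ∧
      c ≠ 0 ∧ A ᵥ* g.map Complex.ofRealHom = ((g.det : ℂ) * c) • A ∧
      star A ᵥ* g.map Complex.ofRealHom = ((g.det : ℂ) * c⁻¹) • star A := by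
  obtain ⟨hs, A, c, c', hA, hAA, hc, hc', h1, h2⟩ := orth_eig g hg
  have hs' : (g.det : ℂ) = 1 ∨ (g.det : ℂ) = -1 := by
    rcases hs with h1 | h1
    · left; rw [h1]; simp
    · right; rw [h1]; simp
  have hss : (g.det : ℂ) * g.det = 1 := by
    rcases hs' with h | h <;> rw [h] <;> norm_num
  refine ⟨hs', A, c, hA, hAA, hc, h1, ?_⟩
  have h3 : (A ᵥ* g.map Complex.ofRealHom) ⬝ᵥ (star A ᵥ* g.map Complex.ofRealHom) = A ⬝ᵥ star A := by
    rw [← mulVec_transpose (g.map Complex.ofRealHom) (star A), dotProduct_mulVec, vecMul_vecMul,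
      cast_orth hg, vecMul_one]
  rw [h1, h2, smul_dotProduct, dotProduct_smul, smul_eq_mul, smul_eq_mul] at h3
  have h4 : A ⬝ᵥ star A ≠ 0 := by
    open scoped ComplexOrder in
    intro h
    exact hA (dotProduct_self_star_eq_zero.1 h)
  have h5 : c * c' = 1 := by
    apply mul_right_cancel₀ h4
    linear_combination h3 - (c * c' * (A ⬝ᵥ star A)) * hss
  have h6 : c' = c⁻¹ := by
    field_simp
    linear_combination h5
  rw [← h6]
  exact h2

end Pool.Agent.Tri
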