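import Mathlib

/-!
# Dominated substitution operators

Polynomials in three variables over a field with a valuation `v`.  The weight of a monomial is
(exponent of the variable 0) - (exponent of the variable 2).  `Near v ε F α c` says that `F` is
`c` times the monomial `α` up to an error with coefficients of size at most `ε`, and at most `ε²`
on the monomials of the same weight.  The main result is `dominance`: a sum of three
substitutions which are near to suitable multiples of monomial substitutions is injective.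
-/

open MvPolynomial

namespace Pool.Agent.Tri

section Near

variable {K Γ : Type*} [Field K] [LinearOrderedCommGroupWithZero Γ]

/-- the weight of a monomial -/
def wt (α : Fin 3 →₀ ℕ) : ℤ := (α 0 : ℤ) - α 2

theorem wt_add (α β : Fin 3 →₀ ℕ) : wt (α + β) = wt α + wt β := by
  unfold wt
  rw [Finsupp.add_apply, Finsupp.add_apply]
  push_cast
  ring

/-- allowed size of the error -/
def sz (ε : Γ) (α β : Fin 3 →₀ ℕ) : Γ := if wt β = wt α then ε ^ 2 else ε

theorem sz_le {ε : Γ} (hε : ε ≤ 1) (α β : Fin 3 →₀ ℕ) : sz ε α β ≤ ε := by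
  unfold sz
  split_ifs
  · rw [sq]
    exact mul_le_of_le_one_right' hε
  · exact le_rfl

theorem le_sz {ε : Γ} (hε : ε ≤ 1) (α β : Fin 3 →₀ ℕ) : ε ^ 2 ≤ sz ε α β := by
  unfold sz
  split_ifs
  · exact le_rfl
  · rw [sq]
    exact mul_le_of_le_one_right' hε

/-- `F` is near to `c` times the monomial `α` -/
def Near (v : Valuation K Γ) (ε : Γ) (F : MvPolynomial (Fin 3) K) (α : Fin 3 →₀ ℕ) (c : K) :
    Prop :=
  v c ≤ 1 ∧ ∀ β, v (coeff β (F - monomial α c)) ≤ sz ε α β

variable {v : Valuation K Γ} {ε : Γ}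

theorem Near.one : Near v ε 1 0 1 := by
  refine ⟨by rw [map_one], fun β => ?_⟩
  have : (1 : MvPolynomial (Fin 3) K) - monomial 0 1 = 0 := by
    rw [sub_eq_zero]; rfl
  rw [this, coeff_zero, map_zero]
  exact zero_le

theorem Near.mul (hε : ε ≤ 1) {F F' : MvPolynomial (Fin 3) K} {α α' : Fin 3 →₀ ℕ} {c c' : K}
    (h : Near v ε F α c) (h' : Near v ε F' α' c') : Near v ε (F * F') (α + α') (c * c') := by
  refine ⟨by rw [map_mul]; exact mul_le_one' h.1 h'.1, fun β => ?_⟩
  have e : F * F' - monomial (α + α') (c * c') = monomial α c * (F' - monomial α' c') +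
      monomial α' c' * (F - monomial α c) + (F - monomial α c) * (F' - monomial α' c') := by
    have h1 : (monomial (α + α') (c * c') : MvPolynomial (Fin 3) K) =
      monomial α c * monomial α' c' := by rw [monomial_mul]
    rw [h1]
    ring
  rw [e, coeff_add, coeff_add]
  refine (Valuation.map_add_le v (Valuation.map_add_le v ?_ ?_) ?_)
  · rw [coeff_monomial_mul']
    split_ifs with hαβ
    · rw [map_mul]
      refine (mul_le_of_le_one_left' h.1).trans ((h'.2 _).trans ?_)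
      unfold sz
      have : wt (β - α) = wt α' ↔ wt β = wt (α + α') := by
        have h2 : β = α + (β - α) := (add_tsub_cancel_of_le hαβ).symm
        have h3 : wt β = wt α + wt (β - α) := by
          conv_lhs => rw [h2]
          exact wt_add _ _
        rw [h3, wt_add]
        constructor
        · intro h4; rw [h4]
        · intro h4; exact add_left_cancel h4
      simp only [this]
      exact le_rfl
    · rw [map_zero]; exact zero_le
  · rw [coeff_monomial_mul']
    split_ifs with hαβ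
    · rw [map_mul]
      refine (mul_le_of_le_one_left' h'.1).trans ((h.2 _).trans ?_)
      unfold sz
      have : wt (β - α') = wt α ↔ wt β = wt (α + α') := by
        have h2 : β = α' + (β - α') := (add_tsub_cancel_of_le hαβ).symm
        have h3 : wt β = wt α' + wt (β - α') := by
          conv_lhs => rw [h2]
          exact wt_add _ _
        rw [h3, wt_add, add_comm (wt α)]
        constructor
        · intro h4; rw [h4]
        · intro h4; exact add_left_cancel h4
      simp only [this]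
      exact le_rfl
    · rw [map_zero]; exact zero_le
  · rw [coeff_mul]
    refine Valuation.map_sum_le v fun x _ => ?_
    rw [map_mul]
    refine (mul_le_mul' ((h.2 _).trans (sz_le hε _ _)) ((h'.2 _).trans (sz_le hε _ _))).trans ?_
    rw [← sq]
    exact le_sz hε _ _

theorem Near.pow (hε : ε ≤ 1) {F : MvPolynomial (Fin 3) K} {α : Fin 3 →₀ ℕ} {c : K}
    (h : Near v ε F α c) (n : ℕ) : Near v ε (F ^ n) (n • α) (c ^ n) := by
  induction n with
  | zero =>
    rw [pow_zero, zero_smul, pow_zero]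
    exact Near.one
  | succ n ih =>
    rw [pow_succ, succ_nsmul, pow_succ]
    exact ih.mul hε h

theorem Near.coeff_le (hε : ε ≤ 1) {F : MvPolynomial (Fin 3) K} {α : Fin 3 →₀ ℕ} {c : K}
    (h : Near v ε F α c) (β : Fin 3 →₀ ℕ) : v (coeff β F) ≤ 1 := by
  have e : coeff β F = coeff β (F - monomial α c) + coeff β (monomial α c) := by
    rw [← coeff_add, sub_add_cancel]
  rw [e]
  refine Valuation.map_add_le v ((h.2 β).trans ((sz_le hε _ _).trans hε)) ?_
  rw [coeff_monomial]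
  split_ifs
  · exact h.1
  · rw [map_zero]; exact zero_le

theorem Near.add {F F' : MvPolynomial (Fin 3) K} {α : Fin 3 →₀ ℕ} {c c' : K}
    (h : Near v ε F α c) (h' : Near v ε F' α c') : Near v ε (F + F') α (c + c') := by
  refine ⟨Valuation.map_add_le v h.1 h'.1, fun β => ?_⟩
  have e : F + F' - monomial α (c + c') = (F - monomial α c) + (F' - monomial α c') := by
    rw [map_add]
    ring
  rw [e, coeff_add]
  exact Valuation.map_add_le v (h.2 β) (h'.2 β)

end Near

section Dom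

variable {K Γ : Type*} [Field K] [LinearOrderedCommGroupWithZero Γ]

/-- the monomial with given exponents -/
noncomputable def ex (i j k : ℕ) : Fin 3 →₀ ℕ :=
  i • Finsupp.single 0 1 + j • Finsupp.single 1 1 + k • Finsupp.single 2 1

theorem ex_zero (i j k : ℕ) : ex i j k 0 = i := by
  simp [ex]

theorem ex_one (i j k : ℕ) : ex i j k 1 = j := by
  simp [ex]

theorem ex_two (i j k : ℕ) : ex i j k 2 = k := by
  simp [ex]

theorem ex_self (α : Fin 3 →₀ ℕ) : ex (α 0) (α 1) (α 2) = α := by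
  ext i
  fin_cases i
  · exact ex_zero _ _ _
  · exact ex_one _ _ _
  · exact ex_two _ _ _

/-- exchange of the variables 0 and 2 -/
noncomputable def sw (α : Fin 3 →₀ ℕ) : Fin 3 →₀ ℕ := ex (α 2) (α 1) (α 0)

theorem sw_sw (α : Fin 3 →₀ ℕ) : sw (sw α) = α := by
  unfold sw
  rw [ex_zero, ex_one, ex_two, ex_self]

theorem sw_inj {α β : Fin 3 →₀ ℕ} (h : sw α = sw β) : α = β := by
  rw [← sw_sw α, h, sw_sw]

theorem wt_sw (α : Fin 3 →₀ ℕ) : wt (sw α) = -wt α := by
  unfold sw wt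
  rw [ex_zero, ex_two]
  ring

theorem aeval_monomial3 (L : Fin 3 → MvPolynomial (Fin 3) K) (α : Fin 3 →₀ ℕ) :
    aeval L (monomial α (1 : K)) = L 0 ^ α 0 * L 1 ^ α 1 * L 2 ^ α 2 := by
  rw [aeval_monomial, map_one, one_mul, Finsupp.prod_fintype _ _ (fun i => pow_zero _),
    Fin.prod_univ_three]

variable {v : Valuation K Γ} {ε : Γ}

theorem near3 (hε : ε ≤ 1) {L : Fin 3 → MvPolynomial (Fin 3) K} {a0 a1 a2 : Fin 3 →₀ ℕ}
    {c0 c1 c2 : K} (h0 : Near v ε (L 0) a0 c0) (h1 : Near v ε (L 1) a1 c1)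
    (h2 : Near v ε (L 2) a2 c2) (i j k : ℕ) :
    Near v ε (L 0 ^ i * L 1 ^ j * L 2 ^ k) (i • a0 + j • a1 + k • a2) (c0 ^ i * c1 ^ j * c2 ^ k) :=
  ((h0.pow hε i).mul hε (h1.pow hε j)).mul hε (h2.pow hε k)

/-- a column of the operator, off the diagonal weight -/
theorem column_off (hε : ε ≤ 1) {F1 F2 F3 : MvPolynomial (Fin 3) K} {α β γ : Fin 3 →₀ ℕ}
    {c1 c2 c3 u w : K} (h1 : Near v ε F1 β c1) (h2 : Near v ε F2 α c2) (h3 : Near v ε F3 γ c3)
    (hu : v u ≤ ε) (hw : v w ≤ ε) (δ : Fin 3 →₀ ℕ) :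
    v (coeff δ (C u * F1 + F2 + C w * F3 - monomial α c2)) ≤ ε := by
  have e : C u * F1 + F2 + C w * F3 - monomial α c2 =
    C u * F1 + (F2 - monomial α c2) + C w * F3 := by ring
  rw [e, coeff_add, coeff_add, coeff_C_mul, coeff_C_mul]
  refine Valuation.map_add_le v (Valuation.map_add_le v ?_ ?_) ?_
  · rw [map_mul]
    exact (mul_le_mul' hu (h1.coeff_le hε δ)).trans (mul_one ε).le
  · exact (h2.2 δ).trans (sz_le hε _ _)
  · rw [map_mul]
    exact (mul_le_mul' hw (h3.coeff_le hε δ)).trans (mul_one ε).le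

theorem val_sign {s : K} (hs : s = 1 ∨ s = -1) : v s = 1 := by
  rcases hs with rfl | rfl
  · exact map_one v
  · rw [Valuation.map_neg, map_one]

theorem sign_pow {s : K} (hs : s = 1 ∨ s = -1) (n : ℕ) : s ^ n = 1 ∨ s ^ n = -1 := by
  rcases hs with rfl | rfl
  · left; exact one_pow n
  · exact neg_one_pow_eq_or K n

theorem sign_mul {s t : K} (hs : s = 1 ∨ s = -1) (ht : t = 1 ∨ t = -1) :
    s * t = 1 ∨ s * t = -1 := by
  rcases hs with rfl | rfl <;> rcases ht with rfl | rfl <;> simp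

theorem three_le (v : Valuation K Γ) : v 3 ≤ 1 := by
  have : (3 : K) = 1 + 1 + 1 := by norm_num
  rw [this]
  exact Valuation.map_add_le v (Valuation.map_add_le v (map_one v).le (map_one v).le)
    (map_one v).le

theorem sum_sign {s t : K} (hs : s = 1 ∨ s = -1) (ht : t = 1 ∨ t = -1) :
    v 3 ≤ v (1 + s + t) := by
  rcases hs with rfl | rfl <;> rcases ht with rfl | rfl
  · have : (1 : K) + 1 + 1 = 3 := by norm_num
    rw [this]
  · have : (1 : K) + 1 + -1 = 1 := by ring
    rw [this, map_one]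
    exact three_le v
  · have : (1 : K) + -1 + 1 = 1 := by ring
    rw [this, map_one]
    exact three_le v
  · have : (1 : K) + -1 + -1 = -1 := by ring
    rw [this, Valuation.map_neg, map_one]
    exact three_le v

/-- what is needed of a column -/
def Col (v : Valuation K Γ) (ε : Γ) (α : Fin 3 →₀ ℕ) (S : MvPolynomial (Fin 3) K) : Prop :=
  ∃ (D c : K) (Q : MvPolynomial (Fin 3) K), D ≠ 0 ∧ S = C D * Q ∧ (wt α ≠ 0 → v c = 1) ∧
    v 3 ≤ v c ∧ (∀ δ, v (coeff δ (Q - monomial (sw α) c)) ≤ ε) ∧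
    (wt α = 0 → ∀ δ, wt δ = 0 → v (coeff δ (Q - monomial (sw α) c)) ≤ ε ^ 2)

/-- An operator all of whose columns are dominated is injective. -/
theorem injective_of_col (hε : ε < 1) (h3 : ε ^ 2 < v 3)
    (T : MvPolynomial (Fin 3) K →ₗ[K] MvPolynomial (Fin 3) K)
    (hT : ∀ α, Col v ε α (T (monomial α 1))) (P : MvPolynomial (Fin 3) K) (hP : T P = 0) :
    P = 0 := by
  classical
  choose D c Q hD hS hc1 hc3 hQ hQ2 using hT
  by_contra hne
  have hsupp : P.support.Nonempty := by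
    rwa [Finset.nonempty_iff_ne_empty, Ne, support_eq_empty]
  let y : (Fin 3 →₀ ℕ) → K := fun α => coeff α P * D α
  obtain ⟨μ, hμs, hμ⟩ := Finset.exists_max_image P.support (fun α => v (y α)) hsupp
  have hy0 : v (y μ) ≠ 0 := by
    rw [Valuation.ne_zero_iff]
    exact mul_ne_zero (mem_support_iff.1 hμs) (hD μ)
  have hsum : ∑ α ∈ P.support, C (y α) * Q α = 0 := by
    rw [← hP]
    conv_rhs => rw [P.as_sum, map_sum]
    refine Finset.sum_congr rfl fun α _ => ?_
    have : (monomial α (coeff α P) : MvPolynomial (Fin 3) K) = coeff α P • monomial α 1 := by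
      rw [smul_monomial, smul_eq_mul, mul_one]
    rw [this, map_smul, hS, smul_eq_C_mul, ← mul_assoc, ← C_mul]
  have key : ∀ γ ∈ P.support, y γ * c γ =
      -∑ α ∈ P.support, y α * coeff (sw γ) (Q α - monomial (sw α) (c α)) := by
    intro γ hγ
    have h1 := congrArg (coeff (sw γ)) hsum
    rw [coeff_sum, coeff_zero] at h1
    have h2 : ∀ α ∈ P.support, coeff (sw γ) (C (y α) * Q α) =
        y α * coeff (sw γ) (Q α - monomial (sw α) (c α)) + if α = γ then y γ * c γ else 0 := by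
      intro α _
      rw [coeff_C_mul, coeff_sub, coeff_monomial]
      by_cases hαγ : α = γ
      · subst hαγ
        rw [if_pos rfl, if_pos rfl]
        ring
      · rw [if_neg (fun h => hαγ (sw_inj h)), if_neg hαγ]
        ring
    rw [Finset.sum_congr rfl h2, Finset.sum_add_distrib, Finset.sum_ite_eq', if_pos hγ] at h1
    linear_combination h1
  have step1 : ∀ γ ∈ P.support, wt γ ≠ 0 → v (y γ) ≤ v (y μ) * ε := by
    intro γ hγ hw
    have h1 : v (y γ) = v (y γ * c γ) := by rw [Valuation.map_mul v (y γ), hc1 γ hw, mul_one]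
    rw [h1, key γ hγ, Valuation.map_neg]
    refine Valuation.map_sum_le v fun α hα => ?_
    rw [map_mul]
    exact mul_le_mul' (hμ α hα) (hQ α _)
  have hwμ : wt μ = 0 := by
    by_contra hw
    have h1 := step1 μ hμs hw
    have h2 : v (y μ) * ε < v (y μ) * 1 := by
      exact mul_lt_mul_of_pos_left hε (zero_lt_iff.2 hy0)
    rw [mul_one] at h2
    exact absurd h1 (not_le.2 h2)
  have step2 : v (y μ) * v (c μ) ≤ v (y μ) * ε ^ 2 := by
    rw [← map_mul, key μ hμs, Valuation.map_neg]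
    refine Valuation.map_sum_le v fun α hα => ?_
    rw [map_mul]
    by_cases hw : wt α = 0
    · exact mul_le_mul' (hμ α hα) (hQ2 α hw _ (by rw [wt_sw, hwμ, neg_zero]))
    · refine (mul_le_mul' (step1 α hα hw) (hQ α _)).trans ?_
      rw [mul_assoc, ← sq]
  have h4 : v (c μ) ≤ ε ^ 2 := by
    exact le_of_mul_le_mul_left step2 (zero_lt_iff.2 hy0)
  exact absurd (lt_of_le_of_lt h4 h3) (not_lt.2 (hc3 μ))

theorem val_inv_pow {m : K} (hε : ε ≤ 1) (hm : v m⁻¹ ≤ ε) {n : ℕ} (hn : n ≠ 0) :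
    v ((m⁻¹ ^ 2) ^ n) ≤ ε := by
  rw [map_pow, map_pow, ← pow_mul]
  have h1 : v m⁻¹ ^ (2 * n) ≤ v m⁻¹ ^ 1 :=
    pow_le_pow_right_of_le_one' (hm.trans hε) (by omega)
  rw [pow_one] at h1
  exact h1.trans hm

/-- The columns of a sum of three dominated substitutions. -/
theorem col_of_near (hε : ε < 1) {s t m n : K} (hs : s = 1 ∨ s = -1) (ht : t = 1 ∨ t = -1)
    (hm0 : m ≠ 0) (hn0 : n ≠ 0) (hm : v m⁻¹ ≤ ε) (hn : v n⁻¹ ≤ ε)
    {L1 L2 L3 l2 l3 : Fin 3 → MvPolynomial (Fin 3) K}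
    (h10 : Near v ε (L1 0) (Finsupp.single 0 1) 1) (h11 : Near v ε (L1 1) (Finsupp.single 1 1) 1)
    (h12 : Near v ε (L1 2) (Finsupp.single 2 1) 1)
    (h20 : Near v ε (l2 0) (Finsupp.single 2 1) s) (h21 : Near v ε (l2 1) (Finsupp.single 1 1) (-s))
    (h22 : Near v ε (l2 2) (Finsupp.single 0 1) s)
    (h30 : Near v ε (l3 0) (Finsupp.single 2 1) t) (h31 : Near v ε (l3 1) (Finsupp.single 1 1) (-t))
    (h32 : Near v ε (l3 2) (Finsupp.single 0 1) t)
    (e20 : L2 0 = C (m⁻¹ ^ 2) * l2 0) (e21 : L2 1 = l2 1) (e22 : L2 2 = C (m ^ 2) * l2 2)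
    (e30 : L3 0 = C (n ^ 2) * l3 0) (e31 : L3 1 = l3 1) (e32 : L3 2 = C (n⁻¹ ^ 2) * l3 2)
    (α : Fin 3 →₀ ℕ) :
    Col v ε α (aeval L1 (monomial α (1 : K)) + aeval L2 (monomial α (1 : K)) +
      aeval L3 (monomial α (1 : K))) := by
  have hεle := hε.le
  rw [aeval_monomial3, aeval_monomial3, aeval_monomial3]
  set i := α 0 with hi
  set j := α 1 with hj
  set k := α 2 with hk
  have hα : α = i • Finsupp.single 0 1 + j • Finsupp.single 1 1 + k • Finsupp.single 2 1 :=
    (ex_self α).symm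
  have hsw : sw α = i • Finsupp.single 2 1 + j • Finsupp.single 1 1 + k • Finsupp.single 0 1 := by
    unfold sw ex
    rw [add_comm, add_comm (α 2 • _), ← add_assoc]
  have N1 := near3 hεle h10 h11 h12 i j k
  have N2 := near3 hεle h20 h21 h22 i j k
  have N3 := near3 hεle h30 h31 h32 i j k
  rw [← hα, one_pow, one_pow, one_pow, one_mul, one_mul] at N1
  rw [← hsw] at N2 N3
  set F1 := L1 0 ^ i * L1 1 ^ j * L1 2 ^ k with hF1
  set F2 := l2 0 ^ i * l2 1 ^ j * l2 2 ^ k with hF2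
  set F3 := l3 0 ^ i * l3 1 ^ j * l3 2 ^ k with hF3
  have hneg : ∀ {x : K}, x = 1 ∨ x = -1 → -x = 1 ∨ -x = -1 := by
    rintro x (rfl | rfl)
    · right; rfl
    · left; rw [neg_neg]
  have hc2 : s ^ i * (-s) ^ j * s ^ k = 1 ∨ s ^ i * (-s) ^ j * s ^ k = -1 :=
    sign_mul (sign_mul (sign_pow hs i) (sign_pow (hneg hs) j)) (sign_pow hs k)
  have hc3 : t ^ i * (-t) ^ j * t ^ k = 1 ∨ t ^ i * (-t) ^ j * t ^ k = -1 :=
    sign_mul (sign_mul (sign_pow ht i) (sign_pow (hneg ht) j)) (sign_pow ht k)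
  have E2 : L2 0 ^ i * L2 1 ^ j * L2 2 ^ k = C ((m⁻¹ ^ 2) ^ i * (m ^ 2) ^ k) * F2 := by
    rw [e20, e21, e22, hF2]
    simp only [map_mul, map_pow]
    ring
  have E3 : L3 0 ^ i * L3 1 ^ j * L3 2 ^ k = C ((n ^ 2) ^ i * (n⁻¹ ^ 2) ^ k) * F3 := by
    rw [e30, e31, e32, hF3]
    simp only [map_mul, map_pow]
    ring
  rw [E2, E3]
  have hw : wt α = (i : ℤ) - k := rfl
  have cancel : ∀ {x : K}, x ≠ 0 → ∀ a b : ℕ, (x⁻¹ ^ 2) ^ a * (x ^ 2) ^ (a + b) = (x ^ 2) ^ b := by
    intro x hx a b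
    rw [pow_add, ← mul_assoc, ← mul_pow, ← mul_pow, inv_mul_cancel₀ hx, one_pow, one_pow, one_mul]
  have cancel' : ∀ {x : K}, x ≠ 0 → ∀ a b : ℕ, (x ^ 2) ^ a * (x⁻¹ ^ 2) ^ (a + b) = (x⁻¹ ^ 2) ^ b := by
    intro x hx a b
    rw [pow_add, ← mul_assoc, ← mul_pow, ← mul_pow, mul_inv_cancel₀ hx, one_pow, one_pow, one_mul]
  rcases lt_trichotomy i k with hik | hik | hik
  · obtain ⟨b, hb⟩ := Nat.exists_eq_add_of_lt hik
    have hb' : k = i + (b + 1) := by omega
    have hb0 : b + 1 ≠ 0 := by omega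
    refine ⟨(m ^ 2) ^ (b + 1), s ^ i * (-s) ^ j * s ^ k,
      C ((m⁻¹ ^ 2) ^ (b + 1)) * F1 + F2 + C ((m⁻¹ ^ 2) ^ (b + 1) * (n⁻¹ ^ 2) ^ (b + 1)) * F3,
      pow_ne_zero _ (pow_ne_zero _ hm0), ?_, fun _ => val_sign hc2, ?_, ?_, ?_⟩
    · have g1 := cancel hm0 i (b + 1)
      have g2 := cancel' hn0 i (b + 1)
      rw [← hb'] at g1 g2
      rw [g1, g2]
      have g3 : (C ((m ^ 2) ^ (b + 1)) : MvPolynomial (Fin 3) K) * C ((m⁻¹ ^ 2) ^ (b + 1)) = 1 := by
        rw [← C_mul, ← mul_pow, ← mul_pow, mul_inv_cancel₀ hm0, one_pow, one_pow, C_1]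
      rw [C_mul (a := (m⁻¹ ^ 2) ^ (b + 1))]
      linear_combination (-F1 - C ((n⁻¹ ^ 2) ^ (b + 1)) * F3) * g3
    · rw [val_sign hc2]
      exact three_le v
    · intro δ
      refine column_off hεle N1 N2 N3 (val_inv_pow hεle hm hb0) ?_ δ
      rw [map_mul]
      exact (mul_le_mul' (val_inv_pow hεle hm hb0) ((val_inv_pow hεle hn hb0).trans hεle)).trans
        (mul_one ε).le
    · intro h0
      rw [hw] at h0
      omega
  · refine ⟨1, 1 + s ^ i * (-s) ^ j * s ^ k + t ^ i * (-t) ^ j * t ^ k, F1 + F2 + F3,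
      one_ne_zero, ?_, ?_, sum_sign hc2 hc3, ?_, ?_⟩
    · have g1 := cancel hm0 i 0
      have g2 := cancel' hn0 i 0
      rw [add_zero, hik, pow_zero] at g1 g2
      rw [hik, g1, g2, C_1]
      ring
    · intro h0
      rw [hw, hik] at h0
      exact absurd (sub_self _) h0
    · intro δ
      have hα' : sw α = α := by
        rw [hsw]
        conv_rhs => rw [hα]
        rw [hik]
        abel
      rw [hα'] at N2 N3 ⊢
      exact ((N1.add N2).add N3).2 δ |>.trans (sz_le hεle _ _)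
    · intro h0 δ hδ
      have hα' : sw α = α := by
        rw [hsw]
        conv_rhs => rw [hα]
        rw [hik]
        abel
      rw [hα'] at N2 N3 ⊢
      have := ((N1.add N2).add N3).2 δ
      unfold sz at this
      rwa [if_pos (by rw [hδ, h0])] at this
  · obtain ⟨b, hb⟩ := Nat.exists_eq_add_of_lt hik
    have hb' : i = k + (b + 1) := by omega
    have hb0 : b + 1 ≠ 0 := by omega
    refine ⟨(n ^ 2) ^ (b + 1), t ^ i * (-t) ^ j * t ^ k,
      C ((n⁻¹ ^ 2) ^ (b + 1)) * F1 + F3 + C ((n⁻¹ ^ 2) ^ (b + 1) * (m⁻¹ ^ 2) ^ (b + 1)) * F2,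
      pow_ne_zero _ (pow_ne_zero _ hn0), ?_, fun _ => val_sign hc3, ?_, ?_, ?_⟩
    · have g1 := cancel hn0 k (b + 1)
      have g2 := cancel' hm0 k (b + 1)
      rw [← hb'] at g1 g2
      rw [mul_comm ((m⁻¹ ^ 2) ^ i), mul_comm ((n ^ 2) ^ i), g1, g2]
      have g3 : (C ((n ^ 2) ^ (b + 1)) : MvPolynomial (Fin 3) K) * C ((n⁻¹ ^ 2) ^ (b + 1)) = 1 := by
        rw [← C_mul, ← mul_pow, ← mul_pow, mul_inv_cancel₀ hn0, one_pow, one_pow, C_1]
      rw [C_mul (a := (n⁻¹ ^ 2) ^ (b + 1))]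
      linear_combination (-F1 - C ((m⁻¹ ^ 2) ^ (b + 1)) * F2) * g3
    · rw [val_sign hc3]
      exact three_le v
    · intro δ
      refine column_off hεle N1 N3 N2 (val_inv_pow hεle hn hb0) ?_ δ
      rw [map_mul]
      exact (mul_le_mul' (val_inv_pow hεle hn hb0) ((val_inv_pow hεle hm hb0).trans hεle)).trans
        (mul_one ε).le
    · intro h0
      rw [hw] at h0
      omega

end Dom

end Pool.Agent.Tri
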