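import Mathlib

/-!
# Isotropic eigenvectors of orthogonal matrices
-/

open Matrix

namespace Pool.Agent.Tri

section Real

/-- cofactors of a matrix which is the transpose of its adjugate -/
theorem cross_vecMul (g : Matrix (Fin 3) (Fin 3) ℝ) (hg : g.adjugate = g.transpose)
    (x y : Fin 3 → ℝ) : (crossProduct x y) ᵥ* g = crossProduct (x ᵥ* g) (y ᵥ* g) := by
  have h : ∀ i j, g.adjugate i j = g j i := by
    intro i j
    rw [hg, Matrix.transpose_apply]
  rw [adjugate_fin_three] at h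
  have h00 := h 0 0
  have h01 := h 0 1
  have h02 := h 0 2
  have h10 := h 1 0
  have h11 := h 1 1
  have h12 := h 1 2
  have h20 := h 2 0
  have h21 := h 2 1
  have h22 := h 2 2
  simp at h00 h01 h02 h10 h11 h12 h20 h21 h22
  ext i
  fin_cases i
  · simp [cross_apply, Matrix.vecMul, dotProduct, Fin.sum_univ_three]
    linear_combination -(x 1 * y 2 - x 2 * y 1) * h00 - (x 2 * y 0 - x 0 * y 2) * h01 -
      (x 0 * y 1 - x 1 * y 0) * h02
  · simp [cross_apply, Matrix.vecMul, dotProduct, Fin.sum_univ_three]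
    linear_combination -(x 1 * y 2 - x 2 * y 1) * h10 - (x 2 * y 0 - x 0 * y 2) * h11 -
      (x 0 * y 1 - x 1 * y 0) * h12
  · simp [cross_apply, Matrix.vecMul, dotProduct, Fin.sum_univ_three]
    linear_combination -(x 1 * y 2 - x 2 * y 1) * h20 - (x 2 * y 0 - x 0 * y 2) * h21 -
      (x 0 * y 1 - x 1 * y 0) * h22

theorem exists_perp (n : Fin 3 → ℝ) : ∃ p : Fin 3 → ℝ, p ≠ 0 ∧ n ⬝ᵥ p = 0 := by
  by_cases h : n 0 = 0 ∧ n 1 = 0
  · refine ⟨![1, 0, 0], ?_, ?_⟩
    · intro h0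
      have := congrFun h0 0
      simp at this
    · simp [dotProduct, Fin.sum_univ_three, h.1]
  · refine ⟨![-n 1, n 0, 0], ?_, ?_⟩
    · intro h0
      apply h
      have h1 := congrFun h0 0
      have h2 := congrFun h0 1
      simp at h1 h2
      exact ⟨h2, h1⟩
    · simp [dotProduct, Fin.sum_univ_three]
      ring

theorem dot_self_pos {n : Fin 3 → ℝ} (hn : n ≠ 0) : 0 < n ⬝ᵥ n := by
  have h0 : 0 ≤ n ⬝ᵥ n := by
    simp only [dotProduct, Fin.sum_univ_three]
    nlinarith [mul_self_nonneg (n 0), mul_self_nonneg (n 1), mul_self_nonneg (n 2)]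
  rcases h0.lt_or_eq with h | h
  · exact h
  · exact absurd (dotProduct_self_eq_zero.1 h.symm) hn

/-- A rotation matrix has an isotropic eigenvector. -/
theorem rot_eig (g : Matrix (Fin 3) (Fin 3) ℝ) (hg : g * g.transpose = 1) (hd : g.det = 1) :
    ∃ (A : Fin 3 → ℂ) (c : ℂ), A ≠ 0 ∧ A ⬝ᵥ A = 0 ∧ A ᵥ* g.map Complex.ofRealHom = c • A := by
  have hg' : g.transpose * g = 1 := mul_eq_one_comm.1 hg
  have hadj : g.adjugate = g.transpose := by
    have h1 : g * g.adjugate = 1 := by rw [mul_adjugate, hd, one_smul]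
    calc g.adjugate = (g.transpose * g) * g.adjugate := by rw [hg', one_mul]
      _ = g.transpose := by rw [mul_assoc, h1, mul_one]
  -- a fixed vector
  have hdet : (g - 1).det = 0 := by
    have h1 : (g - 1).det = (g * (1 - g.transpose)).det := by
      rw [mul_sub, mul_one, hg]
    have h2 : (1 - g.transpose).det = -(g - 1).det := by
      have h3 : (1 - g.transpose) = -((g - 1).transpose) := by
        rw [transpose_sub, transpose_one]
        abel
      rw [h3, det_neg, det_transpose, Fintype.card_fin]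
      ring
    rw [det_mul, hd, h2] at h1
    linarith
  obtain ⟨n, hn0, hn⟩ := exists_vecMul_eq_zero_iff.2 hdet
  have hn' : n ᵥ* g = n := by
    rw [vecMul_sub, vecMul_one, sub_eq_zero] at hn
    exact hn
  obtain ⟨p, hp0, hnp⟩ := exists_perp n
  set q := crossProduct n p with hq
  set P := p ᵥ* g with hP
  have hN := dot_self_pos hn0
  have hPp := dot_self_pos hp0
  have hnP : n ⬝ᵥ P = 0 := by
    have h1 : (n ᵥ* g) ⬝ᵥ (p ᵥ* g) = n ⬝ᵥ p := by
      rw [← mulVec_transpose g p, dotProduct_mulVec, vecMul_vecMul, hg, vecMul_one]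
    rw [hn'] at h1
    rw [hP, h1, hnp]
  have hQ : q ᵥ* g = crossProduct n P := by
    rw [hq, cross_vecMul g hadj, hn']
  set α : ℝ := (P ⬝ᵥ p) / (p ⬝ᵥ p) with hα
  set β : ℝ := (P ⬝ᵥ q) / ((n ⬝ᵥ n) * (p ⬝ᵥ p)) with hβ
  have hα' : α * (p ⬝ᵥ p) = P ⬝ᵥ p := by rw [hα]; field_simp
  have hβ' : β * ((n ⬝ᵥ n) * (p ⬝ᵥ p)) = P ⬝ᵥ q := by rw [hβ]; field_simp
  have hqe : ∀ i, q i = ![n 1 * p 2 - n 2 * p 1, n 2 * p 0 - n 0 * p 2, n 0 * p 1 - n 1 * p 0] i := by
    intro i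
    rw [hq, cross_apply]
  have hq0 := hqe 0
  have hq1 := hqe 1
  have hq2 := hqe 2
  simp at hq0 hq1 hq2
  have hPe : ∀ i, P i = α * p i + β * q i := by
    intro i
    have hne : (n ⬝ᵥ n) * (p ⬝ᵥ p) ≠ 0 := (mul_pos hN hPp).ne'
    apply mul_left_cancel₀ hne
    have e : (n ⬝ᵥ n) * (p ⬝ᵥ p) * (α * p i + β * q i) =
        (n ⬝ᵥ n) * (P ⬝ᵥ p) * p i + (P ⬝ᵥ q) * q i := by
      rw [← hα', ← hβ']; ring
    rw [e]
    simp only [dotProduct, Fin.sum_univ_three] at hnp hnP ⊢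
    fin_cases i
    · simp only [Fin.zero_eta, hq0, hq1, hq2]
      linear_combination ((n 0 * p 0 + n 1 * p 1 + n 2 * p 2) * P 0 -
        (P 0 * p 0 + P 1 * p 1 + P 2 * p 2) * n 0 -
        (n 0 * P 0 + n 1 * P 1 + n 2 * P 2) * p 0) * hnp +
        (p 0 * p 0 + p 1 * p 1 + p 2 * p 2) * n 0 * hnP
    · simp only [Fin.mk_one, hq0, hq1, hq2]
      linear_combination ((n 0 * p 0 + n 1 * p 1 + n 2 * p 2) * P 1 -
        (P 0 * p 0 + P 1 * p 1 + P 2 * p 2) * n 1 -
        (n 0 * P 0 + n 1 * P 1 + n 2 * P 2) * p 1) * hnp +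
        (p 0 * p 0 + p 1 * p 1 + p 2 * p 2) * n 1 * hnP
    · simp only [Fin.reduceFinMk, hq0, hq1, hq2]
      linear_combination ((n 0 * p 0 + n 1 * p 1 + n 2 * p 2) * P 2 -
        (P 0 * p 0 + P 1 * p 1 + P 2 * p 2) * n 2 -
        (n 0 * P 0 + n 1 * P 1 + n 2 * P 2) * p 2) * hnp +
        (p 0 * p 0 + p 1 * p 1 + p 2 * p 2) * n 2 * hnP
  have hρ0 : 0 < Real.sqrt (n ⬝ᵥ n) := Real.sqrt_pos.2 hN
  set ρ := Real.sqrt (n ⬝ᵥ n) with hρ
  have hρ2 : ρ * ρ = n ⬝ᵥ n := Real.mul_self_sqrt hN.le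
  have hQe : ∀ i, (q ᵥ* g) i = α * q i - β * (ρ * ρ) * p i := by
    intro i
    rw [hQ, cross_apply, hρ2]
    have e0 := hPe 0
    have e1 := hPe 1
    have e2 := hPe 2
    simp only [dotProduct, Fin.sum_univ_three] at hnp ⊢
    fin_cases i
    · simp [e0, e1, e2, hq0, hq1, hq2]
      linear_combination β * n 0 * hnp
    · simp [e0, e1, e2, hq0, hq1, hq2]
      linear_combination β * n 1 * hnp
    · simp [e0, e1, e2, hq0, hq1, hq2]
      linear_combination β * n 2 * hnp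
  refine ⟨fun i => (ρ : ℂ) * p i + Complex.I * q i, (α : ℂ) - Complex.I * β * ρ, ?_, ?_, ?_⟩
  · intro h0
    apply hp0
    funext i
    have h1 := congrArg Complex.re (congrFun h0 i)
    simp at h1
    rcases h1 with h1 | h1
    · exact absurd h1 hρ0.ne'
    · exact h1
  · have hqq : q ⬝ᵥ q = (n ⬝ᵥ n) * (p ⬝ᵥ p) := by
      simp only [dotProduct, Fin.sum_univ_three, hq0, hq1, hq2] at hnp ⊢
      linear_combination -(n 0 * p 0 + n 1 * p 1 + n 2 * p 2) * hnp
    have hpq : p ⬝ᵥ q = 0 := by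
      simp only [dotProduct, Fin.sum_univ_three, hq0, hq1, hq2]
      ring
    have e : (fun i => (ρ : ℂ) * p i + Complex.I * q i) ⬝ᵥ (fun i => (ρ : ℂ) * p i + Complex.I * q i) =
        (((ρ * ρ) * (p ⬝ᵥ p) - q ⬝ᵥ q : ℝ) : ℂ) + 2 * Complex.I * ρ * ((p ⬝ᵥ q : ℝ) : ℂ) := by
      simp only [dotProduct, Fin.sum_univ_three]
      push_cast
      linear_combination ((q 0 : ℂ) * q 0 + q 1 * q 1 + q 2 * q 2) * Complex.I_sq
    rw [e, hpq, hqq, hρ2]
    simp
  · funext i
    have e : ((fun i => (ρ : ℂ) * p i + Complex.I * q i) ᵥ* g.map Complex.ofRealHom) i =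
        (ρ : ℂ) * ((p ᵥ* g) i : ℝ) + Complex.I * (((q ᵥ* g) i : ℝ) : ℂ) := by
      simp only [vecMul, dotProduct, Fin.sum_univ_three, map_apply, Complex.ofRealHom_eq_coe]
      push_cast
      ring
    rw [e, hQe i, ← hP, hPe i, Pi.smul_apply, smul_eq_mul]
    push_cast
    linear_combination (β : ℂ) * ρ * q i * Complex.I_sq


/-- An orthogonal matrix has a pair of conjugate isotropic eigenvectors. -/
theorem orth_eig (g : Matrix (Fin 3) (Fin 3) ℝ) (hg : g ∈ Matrix.orthogonalGroup (Fin 3) ℝ) :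
    (g.det = 1 ∨ g.det = -1) ∧ ∃ (A : Fin 3 → ℂ) (c c' : ℂ), A ≠ 0 ∧ A ⬝ᵥ A = 0 ∧
      c ≠ 0 ∧ c' ≠ 0 ∧ A ᵥ* g.map Complex.ofRealHom = ((g.det : ℂ) * c) • A ∧
      star A ᵥ* g.map Complex.ofRealHom = ((g.det : ℂ) * c') • star A := by
  have h1 : g * g.transpose = 1 := (Matrix.mem_orthogonalGroup_iff (Fin 3) ℝ).1 hg
  have hd : g.det * g.det = 1 := by
    have := congrArg Matrix.det h1
    rwa [det_mul, det_transpose, det_one] at this
  have hs : g.det = 1 ∨ g.det = -1 := mul_self_eq_one_iff.1 hd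
  refine ⟨hs, ?_⟩
  set s := g.det with hs'
  obtain ⟨A, c, hA, hAA, hAg⟩ := rot_eig (s • g) (by
    rw [transpose_smul, smul_mul_smul_comm, h1, hd, one_smul]) (by
    rw [det_smul, ← hs', Fintype.card_fin]
    calc s ^ 3 * s = (s * s) * (s * s) := by ring
      _ = 1 := by rw [hd, one_mul])
  have hAg' : A ᵥ* g.map Complex.ofRealHom = ((s : ℂ) * c) • A := by
    have e : (s • g).map Complex.ofRealHom = (s : ℂ) • g.map Complex.ofRealHom := by
      ext i j
      simp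
    rw [e, vecMul_smul] at hAg
    have e2 := congrArg (fun x => (s : ℂ) • x) hAg
    simp only [smul_smul] at e2
    have e3 : (s : ℂ) * s = 1 := by exact_mod_cast hd
    rw [e3, one_smul] at e2
    exact e2
  have hginv : g.map Complex.ofRealHom * g.transpose.map Complex.ofRealHom = 1 := by
    rw [← Matrix.map_mul, h1]
    simp
  have hs0 : (s : ℂ) ≠ 0 := by
    intro h
    have e3 : (s : ℂ) * s = 1 := by exact_mod_cast hd
    rw [h, zero_mul] at e3
    exact zero_ne_one e3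
  have hc : c ≠ 0 := by
    intro h
    rw [h, mul_zero, zero_smul] at hAg'
    apply hA
    calc A = (A ᵥ* g.map Complex.ofRealHom) ᵥ* g.transpose.map Complex.ofRealHom := by
          rw [vecMul_vecMul, hginv, vecMul_one]
      _ = 0 := by rw [hAg', zero_vecMul]
  refine ⟨A, c, star c, hA, hAA, hc, ?_, hAg', ?_⟩
  · intro h
    exact hc (star_eq_zero.1 h)
  · have e : star A ᵥ* g.map Complex.ofRealHom = star (A ᵥ* g.map Complex.ofRealHom) := by
      funext i
      simp [vecMul, dotProduct, Fin.sum_univ_three]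
    rw [e, hAg']
    funext i
    simp

end Real

end Pool.Agent.Tri
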