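import Pool.Agent.Lib_MP_8c2fb0_tri.Eig

/-!
# The normal form of a pair of orthogonal matrices
-/

open Matrix
open scoped ComplexOrder

namespace Pool.Agent.Tri

/-- the symmetric square of the matrix `(p, q; r, s)` -/
def sym {K : Type*} [CommRing K] (p q r s : K) : Matrix (Fin 3) (Fin 3) K :=
  !![p ^ 2, 2 * p * q, q ^ 2; p * r, p * s + q * r, q * s; r ^ 2, 2 * r * s, s ^ 2]

theorem sym_mul {K : Type*} [CommRing K] (p q r s p' q' r' s' : K) :
    sym p q r s * sym p' q' r' s' =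
      sym (p * p' + q * r') (p * q' + q * s') (r * p' + s * r') (r * q' + s * s') := by
  ext i j
  fin_cases i <;> fin_cases j <;>
    simp [sym, Matrix.mul_apply, Fin.sum_univ_three] <;> ring

theorem sym_one {K : Type*} [CommRing K] : sym (1 : K) 0 0 1 = 1 := by
  ext i j
  fin_cases i <;> fin_cases j <;> simp [sym]

theorem trace_sym {K : Type*} [CommRing K] (p q r s : K) :
    (sym p q r s).trace = p ^ 2 + (p * s + q * r) + s ^ 2 := by
  simp [sym, Matrix.trace, Fin.sum_univ_three]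

theorem exists_pair {A C : Fin 3 → ℂ} (hA : A ≠ 0) (hC : C ≠ 0) (hAA : A ⬝ᵥ A = 0)
    (hCC : C ⬝ᵥ C = 0) : A ⬝ᵥ C ≠ 0 ∨ A ⬝ᵥ star C ≠ 0 := by
  by_contra hcon
  push Not at hcon
  obtain ⟨h1, h2⟩ := hcon
  set D := star C with hD
  have hκ : C ⬝ᵥ D ≠ 0 := by
    intro h
    exact hC (dotProduct_self_star_eq_zero.1 h)
  apply hA
  simp only [dotProduct, Fin.sum_univ_three] at h1 h2 hκ hAA hCC
  have key : ∀ i, (C 0 * D 0 + C 1 * D 1 + C 2 * D 2) ^ 2 * A i =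
      -(A 0 * (C 1 * D 2 - C 2 * D 1) + A 1 * (C 2 * D 0 - C 0 * D 2) +
        A 2 * (C 0 * D 1 - C 1 * D 0)) *
      (![C 1 * D 2 - C 2 * D 1, C 2 * D 0 - C 0 * D 2, C 0 * D 1 - C 1 * D 0] : Fin 3 → ℂ) i := by
    intro i
    fin_cases i
    · simp
      linear_combination ((D 0 * D 0 + D 1 * D 1 + D 2 * D 2) * A 0 -
        (A 0 * D 0 + A 1 * D 1 + A 2 * D 2) * D 0) * hCC +
        ((C 0 * D 0 + C 1 * D 1 + C 2 * D 2) * D 0 -
          (D 0 * D 0 + D 1 * D 1 + D 2 * D 2) * C 0) * h1 +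
        ((C 0 * D 0 + C 1 * D 1 + C 2 * D 2) * C 0) * h2
    · simp
      linear_combination ((D 0 * D 0 + D 1 * D 1 + D 2 * D 2) * A 1 -
        (A 0 * D 0 + A 1 * D 1 + A 2 * D 2) * D 1) * hCC +
        ((C 0 * D 0 + C 1 * D 1 + C 2 * D 2) * D 1 -
          (D 0 * D 0 + D 1 * D 1 + D 2 * D 2) * C 1) * h1 +
        ((C 0 * D 0 + C 1 * D 1 + C 2 * D 2) * C 1) * h2
    · simp
      linear_combination ((D 0 * D 0 + D 1 * D 1 + D 2 * D 2) * A 2 -
        (A 0 * D 0 + A 1 * D 1 + A 2 * D 2) * D 2) * hCC +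
        ((C 0 * D 0 + C 1 * D 1 + C 2 * D 2) * D 2 -
          (D 0 * D 0 + D 1 * D 1 + D 2 * D 2) * C 2) * h1 +
        ((C 0 * D 0 + C 1 * D 1 + C 2 * D 2) * C 2) * h2
  have k0 := key 0
  have k1 := key 1
  have k2 := key 2
  simp at k0 k1 k2
  have hz : (A 0 * (C 1 * D 2 - C 2 * D 1) + A 1 * (C 2 * D 0 - C 0 * D 2) +
        A 2 * (C 0 * D 1 - C 1 * D 0)) = 0 := by
    have : (A 0 * (C 1 * D 2 - C 2 * D 1) + A 1 * (C 2 * D 0 - C 0 * D 2) +
        A 2 * (C 0 * D 1 - C 1 * D 0)) ^ 2 = 0 := by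
      linear_combination -(C 0 * D 0 + C 1 * D 1 + C 2 * D 2) ^ 2 * hAA + A 0 * k0 + A 1 * k1 +
        A 2 * k2
    exact pow_eq_zero_iff (two_ne_zero) |>.1 this
  funext i
  have := key i
  rw [hz, neg_zero, zero_mul] at this
  exact (mul_eq_zero.1 this).resolve_left (pow_ne_zero _ hκ)

/-- the Gram matrix -/
noncomputable def J : Matrix (Fin 3) (Fin 3) ℂ := !![0, 0, 1; 0, -1 / 2, 0; 1, 0, 0]

/-- its inverse -/
noncomputable def J' : Matrix (Fin 3) (Fin 3) ℂ := !![0, 0, 1; 0, -2, 0; 1, 0, 0]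

theorem J_mul : J * J' = 1 := by
  ext i j
  fin_cases i <;> fin_cases j <;> simp [J, J', Matrix.mul_apply, Fin.sum_univ_three]

theorem J'_transpose : J'.transpose = J' := by
  ext i j
  fin_cases i <;> fin_cases j <;> simp [J']

theorem JJ_apply (G : Matrix (Fin 3) (Fin 3) ℂ) (i j : Fin 3) :
    (G * J * G.transpose) i j = G i 0 * G j 2 + G i 2 * G j 0 - G i 1 * G j 1 / 2 := by
  simp [J, Matrix.mul_apply, Fin.sum_univ_three]
  ring

theorem form_low {G : Matrix (Fin 3) (Fin 3) ℂ} {s a : ℂ} (hs : s * s = 1) (ha : a ≠ 0)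
    (hJ : G * J * G.transpose = J) (hd : G.det = s) (h00 : G 0 0 = s * a ^ 2) (h01 : G 0 1 = 0)
    (h02 : G 0 2 = 0) : ∃ m, G = s • sym a 0 m a⁻¹ := by
  have hs0 : s ≠ 0 := by
    rintro rfl
    rw [mul_zero] at hs
    exact zero_ne_one hs
  have e : ∀ i j, G i 0 * G j 2 + G i 2 * G j 0 - G i 1 * G j 1 / 2 = J i j := by
    intro i j
    rw [← JJ_apply, hJ]
  have e01 := e 0 1
  have e11 := e 1 1
  have e02 := e 0 2
  have e12 := e 1 2
  have e22 := e 2 2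
  simp [J, h00, h01, h02] at e01 e11 e02 e12 e22
  have hx3 : G 1 2 = 0 := by
    rcases e01 with h | h
    · rcases h with h | h
      · exact absurd h hs0
      · exact absurd h ha
    · exact h
  rw [det_fin_three, h00, h01, h02, hx3] at hd
  have hy3 : G 2 2 = s * a⁻¹ ^ 2 := by
    have : a ^ 2 * a⁻¹ ^ 2 = 1 := by
      rw [← mul_pow, mul_inv_cancel₀ ha, one_pow]
    linear_combination s * a⁻¹ ^ 2 * e02 - G 2 2 * this * (s * s) - G 2 2 * hs
  have hx2 : G 1 1 = s := by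
    have : a ^ 2 * a⁻¹ ^ 2 = 1 := by
      rw [← mul_pow, mul_inv_cancel₀ ha, one_pow]
    rw [hy3] at hd
    linear_combination hd - G 1 1 * this * (s * s) - G 1 1 * hs
  rw [hx3, hx2, hy3] at e12
  have hy2 : G 2 1 = 2 * G 1 0 * a⁻¹ ^ 2 := by
    linear_combination -2 * s * e12 + (2 * G 1 0 * a⁻¹ ^ 2 - G 2 1) * hs
  rw [hy2, hy3] at e22
  have haa : a⁻¹ * a = 1 := inv_mul_cancel₀ ha
  have hy1 : G 2 0 = s * (G 1 0 * a⁻¹) ^ 2 := by
    have h2 : a⁻¹ ^ 2 * a ^ 2 = 1 := by rw [← mul_pow, haa, one_pow]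
    linear_combination (s * a ^ 2 / 2) * e22 - G 2 0 * (a ^ 2 * a⁻¹ ^ 2) * hs - G 2 0 * h2 +
      s * G 1 0 ^ 2 * a⁻¹ ^ 2 * h2
  refine ⟨s * G 1 0 * a⁻¹, ?_⟩
  ext i j
  fin_cases i <;> fin_cases j
  · simp [sym, h00]
  · simp [sym, h01]
  · simp [sym, h02]
  · simp [sym]
    linear_combination -G 1 0 * hs - s * s * G 1 0 * haa
  · simp [sym, hx2, ha]
  · simp [sym, hx3]
  · simp [sym, hy1]
    left
    linear_combination -(G 1 0 * a⁻¹) ^ 2 * hs
  · simp [sym, hy2]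
    rw [← inv_pow]
    linear_combination -2 * G 1 0 * a⁻¹ ^ 2 * hs
  · simp [sym, hy3]

theorem form_up {G : Matrix (Fin 3) (Fin 3) ℂ} {s b : ℂ} (hs : s * s = 1) (hb : b ≠ 0)
    (hJ : G * J * G.transpose = J) (hd : G.det = s) (h22 : G 2 2 = s * b⁻¹ ^ 2)
    (h21 : G 2 1 = 0) (h20 : G 2 0 = 0) : ∃ n, G = s • sym b n 0 b⁻¹ := by
  have hs0 : s ≠ 0 := by
    rintro rfl
    rw [mul_zero] at hs
    exact zero_ne_one hs
  have e : ∀ i j, G i 0 * G j 2 + G i 2 * G j 0 - G i 1 * G j 1 / 2 = J i j := by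
    intro i j
    rw [← JJ_apply, hJ]
  have e12 := e 1 2
  have e11 := e 1 1
  have e02 := e 0 2
  have e01 := e 0 1
  have e00 := e 0 0
  simp [J, h20, h21, h22] at e12 e11 e02 e01 e00
  have hw1 : G 1 0 = 0 := by
    rcases e12 with h | h
    · exact h
    · rcases h with h | h
      · exact absurd h hs0
      · exact absurd h hb
  rw [det_fin_three, h20, h21, h22, hw1] at hd
  have hbb : b⁻¹ * b = 1 := inv_mul_cancel₀ hb
  have h2 : b⁻¹ ^ 2 * b ^ 2 = 1 := by rw [← mul_pow, hbb, one_pow]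
  rw [← inv_pow] at e02
  have hu1 : G 0 0 = s * b ^ 2 := by
    linear_combination s * b ^ 2 * e02 - G 0 0 * h2 * (s * s) - G 0 0 * hs
  have hw2 : G 1 1 = s := by
    rw [hu1] at hd
    linear_combination hd - G 1 1 * h2 * (s * s) - G 1 1 * hs
  rw [hw1, hu1, hw2] at e01
  have hu2 : G 0 1 = 2 * b ^ 2 * G 1 2 := by
    linear_combination -2 * s * e01 + (2 * G 1 2 * b ^ 2 - G 0 1) * hs
  rw [hu1, hu2] at e00
  have hu3 : G 0 2 = s * b ^ 2 * G 1 2 ^ 2 := by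
    linear_combination (s * b⁻¹ ^ 2 / 2) * e00 - G 0 2 * (b ^ 2 * b⁻¹ ^ 2) * hs - G 0 2 * h2 +
      s * G 1 2 ^ 2 * b ^ 2 * h2
  refine ⟨s * b * G 1 2, ?_⟩
  ext i j
  fin_cases i <;> fin_cases j
  · simp [sym, hu1]
  · simp [sym, hu2]
    linear_combination -2 * b ^ 2 * G 1 2 * hs
  · simp [sym, hu3]
    linear_combination -(s * b ^ 2 * G 1 2 ^ 2) * hs
  · simp [sym, hw1]
  · simp [sym, hw2, hb]
  · simp [sym]
    linear_combination -G 1 2 * hs - s * s * G 1 2 * hbb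
  · simp [sym, h20]
  · simp [sym, h21]
  · simp [sym, h22]

/-- **Normal form** of a pair of orthogonal matrices. -/
theorem normal_form {g h : Matrix (Fin 3) (Fin 3) ℝ} (hg : g ∈ Matrix.orthogonalGroup (Fin 3) ℝ)
    (hh : h ∈ Matrix.orthogonalGroup (Fin 3) ℝ) :
    ∃ (E E' : Matrix (Fin 3) (Fin 3) ℂ) (s t a b m n : ℂ), E * E' = 1 ∧ (s = 1 ∨ s = -1) ∧
      (t = 1 ∨ t = -1) ∧ a ≠ 0 ∧ b ≠ 0 ∧
      E * g.map Complex.ofRealHom * E' = s • sym a 0 m a⁻¹ ∧
      E * h.map Complex.ofRealHom * E' = t • sym b n 0 b⁻¹ := by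
  obtain ⟨hs, A, c, -, hA, hAA, hc, -, hAg, -⟩ := orth_eig g hg
  have hC : ∃ (C : Fin 3 → ℂ) (d : ℂ), C ⬝ᵥ C = 0 ∧ A ⬝ᵥ C ≠ 0 ∧ d ≠ 0 ∧
      C ᵥ* h.map Complex.ofRealHom = ((h.det : ℂ) * d) • C := by
    obtain ⟨-, C, d, d', hC, hCC, hd, hd', hCh, hCh'⟩ := orth_eig h hh
    rcases exists_pair hA hC hAA hCC with h1 | h1
    · exact ⟨C, d, hCC, h1, hd, hCh⟩
    · refine ⟨star C, d', ?_, h1, hd', hCh'⟩
      have : star C ⬝ᵥ star C = star (C ⬝ᵥ C) := by
        simp [dotProduct, Fin.sum_univ_three]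
      rw [this, hCC, star_zero]
  obtain ⟨ht, -⟩ := orth_eig h hh
  obtain ⟨C₀, d, hCC₀, hAC₀, hd, hCh₀⟩ := hC
  set C : Fin 3 → ℂ := (A ⬝ᵥ C₀)⁻¹ • C₀ with hCdef
  have hCC : C ⬝ᵥ C = 0 := by
    rw [hCdef, smul_dotProduct, dotProduct_smul, hCC₀, smul_zero, smul_zero]
  have hAC : A ⬝ᵥ C = 1 := by
    rw [hCdef, dotProduct_smul, smul_eq_mul, inv_mul_cancel₀ hAC₀]
  have hCh : C ᵥ* h.map Complex.ofRealHom = ((h.det : ℂ) * d) • C := by
    rw [hCdef, smul_vecMul, hCh₀, smul_comm]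
  obtain ⟨ω, hω⟩ : ∃ ω : ℂ, ω * ω = 1 / 2 := by
    obtain ⟨ω, hω⟩ := IsAlgClosed.exists_pow_nat_eq (1 / 2 : ℂ) (n := 2) (by norm_num)
    exact ⟨ω, by rw [← sq, hω]⟩
  set B : Fin 3 → ℂ := ω • crossProduct A C with hB
  have hBe : B = ![ω * (A 1 * C 2 - A 2 * C 1), ω * (A 2 * C 0 - A 0 * C 2),
      ω * (A 0 * C 1 - A 1 * C 0)] := by
    rw [hB, cross_apply]
    simp
  set E : Matrix (Fin 3) (Fin 3) ℂ := Matrix.of ![A, B, C] with hE
  have hEE : E * E.transpose = J := by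
    simp only [dotProduct, Fin.sum_univ_three] at hAA hCC hAC
    ext i j
    rw [Matrix.mul_apply, Fin.sum_univ_three]
    fin_cases i <;> fin_cases j
    · simp [hE, J]; linear_combination hAA
    · simp [hE, J, hBe]; ring
    · simp [hE, J]; linear_combination hAC
    · simp [hE, J, hBe]; ring
    · simp [hE, J, hBe]
      linear_combination ω * ω * (C 0 * C 0 + C 1 * C 1 + C 2 * C 2) * hAA -
        ω * ω * (A 0 * C 0 + A 1 * C 1 + A 2 * C 2 + 1) * hAC - hω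
    · simp [hE, J, hBe]; ring
    · simp [hE, J]; linear_combination hAC
    · simp [hE, J, hBe]; ring
    · simp [hE, J]; linear_combination hCC
  set E' : Matrix (Fin 3) (Fin 3) ℂ := E.transpose * J' with hE'
  have hEE' : E * E' = 1 := by rw [hE', ← mul_assoc, hEE, J_mul]
  have hE'E : E' * E = 1 := mul_eq_one_comm.1 hEE'
  have hE'J : E' * J * E'.transpose = 1 := by
    have h1 : J' * J = 1 := mul_eq_one_comm.1 J_mul
    rw [hE', transpose_mul, J'_transpose, transpose_transpose]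
    calc E.transpose * J' * J * (J' * E) = E.transpose * (J' * J) * J' * E := by
          simp only [mul_assoc]
      _ = E' * E := by rw [h1, mul_one]
      _ = 1 := hE'E
  have conj : ∀ O : Matrix (Fin 3) (Fin 3) ℂ, O * O.transpose = 1 →
      (E * O * E') * J * (E * O * E').transpose = J := by
    intro O hO
    rw [transpose_mul (E * O) E', transpose_mul E O]
    calc E * O * E' * J * (E'.transpose * (O.transpose * E.transpose)) =
        E * O * (E' * J * E'.transpose) * O.transpose * E.transpose := by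
          simp only [mul_assoc]
      _ = E * (O * O.transpose) * E.transpose := by rw [hE'J, mul_one]; simp only [mul_assoc]
      _ = J := by rw [hO, mul_one, hEE]
  have dconj : ∀ O : Matrix (Fin 3) (Fin 3) ℂ, (E * O * E').det = O.det := by
    intro O
    have h1 : E.det * E'.det = 1 := by rw [← det_mul, hEE', det_one]
    rw [det_mul, det_mul]
    linear_combination O.det * h1
  have cast : ∀ O : Matrix (Fin 3) (Fin 3) ℝ, O ∈ Matrix.orthogonalGroup (Fin 3) ℝ →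
      O.map Complex.ofRealHom * (O.map Complex.ofRealHom).transpose = 1 := by
    intro O hO
    have h1 : O * O.transpose = 1 := (Matrix.mem_orthogonalGroup_iff (Fin 3) ℝ).1 hO
    rw [← transpose_map, ← Matrix.map_mul, h1]
    simp
  have dcast : ∀ O : Matrix (Fin 3) (Fin 3) ℝ, (O.map Complex.ofRealHom).det = (O.det : ℂ) := by
    intro O
    exact (RingHom.map_det Complex.ofRealHom O).symm
  have hs' : (g.det : ℂ) = 1 ∨ (g.det : ℂ) = -1 := by
    rcases hs with h1 | h1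
    · left; rw [h1]; simp
    · right; rw [h1]; simp
  have ht' : (h.det : ℂ) = 1 ∨ (h.det : ℂ) = -1 := by
    rcases ht with h1 | h1
    · left; rw [h1]; simp
    · right; rw [h1]; simp
  have sq1 : ∀ {x : ℂ}, x = 1 ∨ x = -1 → x * x = 1 := by
    rintro x (rfl | rfl) <;> norm_num
  obtain ⟨a, ha⟩ := IsAlgClosed.exists_pow_nat_eq c (n := 2) (by norm_num)
  obtain ⟨b', hb'⟩ := IsAlgClosed.exists_pow_nat_eq d (n := 2) (by norm_num)
  have ha0 : a ≠ 0 := by
    rintro rfl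
    apply hc
    rw [← ha]
    norm_num
  have hb0 : b' ≠ 0 := by
    rintro rfl
    apply hd
    rw [← hb']
    norm_num
  have row : ∀ (O : Matrix (Fin 3) (Fin 3) ℂ) (i : Fin 3) (x : ℂ), E i ᵥ* O = x • E i →
      (E * O * E') i = x • (1 : Matrix (Fin 3) (Fin 3) ℂ) i := by
    intro O i x hx
    rw [Matrix.mul_apply_eq_vecMul, Matrix.mul_apply_eq_vecMul, hx, smul_vecMul,
      ← Matrix.mul_apply_eq_vecMul, hEE']
  have rg := row (g.map Complex.ofRealHom) 0 _ hAg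
  have rh := row (h.map Complex.ofRealHom) 2 _ hCh
  obtain ⟨m, hm⟩ := form_low (sq1 hs') ha0 (conj _ (cast g hg)) (by rw [dconj, dcast])
    (by rw [rg]; simp [ha]) (by rw [rg]; simp) (by rw [rg]; simp)
  obtain ⟨n, hn⟩ := form_up (b := b'⁻¹) (sq1 ht') (inv_ne_zero hb0) (conj _ (cast h hh))
    (by rw [dconj, dcast]) (by rw [rh, inv_inv]; simp [hb']) (by rw [rh]; simp)
    (by rw [rh]; simp)
  exact ⟨E, E', g.det, h.det, a, b'⁻¹, m, n, hEE', hs', ht', ha0, inv_ne_zero hb0, hm, hn⟩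

end Pool.Agent.Tri
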