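import Pool.Agent.Lib_MP_8c2fb0_lc.Place
import Pool.Agent.Lib_MP_8c2fb0_tri.Dom
import Pool.Agent.Lib_MP_8c2fb0_tri.Normal

/-!
# Injectivity of `TT` from a valuation
-/

open MvPolynomial

namespace Pool.Agent.Tri

open Pool.Agent.Sph

section Lin

variable {K Γ : Type*} [Field K] [LinearOrderedCommGroupWithZero Γ]

/-- a linear form -/
noncomputable def lin (x : Fin 3 → K) : MvPolynomial (Fin 3) K := ∑ j, C (x j) * X j

theorem lin_smul (c : K) (x : Fin 3 → K) : lin (c • x) = C c * lin x := by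
  unfold lin
  rw [Finset.mul_sum]
  refine Finset.sum_congr rfl fun j _ => ?_
  rw [Pi.smul_apply, smul_eq_mul, C_mul, mul_assoc]

theorem coeff_lin (x : Fin 3 → K) (β : Fin 3 →₀ ℕ) :
    coeff β (lin x) = ∑ j, if Finsupp.single j 1 = β then x j else 0 := by
  unfold lin
  rw [coeff_sum]
  refine Finset.sum_congr rfl fun j _ => ?_
  rw [coeff_C_mul, coeff_X]
  split_ifs
  · rw [mul_one]
  · rw [mul_zero]

theorem wt_single (j : Fin 3) : wt (Finsupp.single j 1) = 1 - (j : ℤ) := by
  fin_cases j <;> simp [wt]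

theorem near_lin {v : Valuation K Γ} {ε : Γ} {x : Fin 3 → K} {i : Fin 3} {c : K} (hc : v c ≤ 1)
    (h : ∀ j, j ≠ i → v (x j) ≤ ε) (hi : v (x i - c) ≤ ε ^ 2) :
    Near v ε (lin x) (Finsupp.single i 1) c := by
  refine ⟨hc, fun β => ?_⟩
  have e : lin x - monomial (Finsupp.single i 1) c = lin (fun j => x j - if j = i then c else 0) := by
    unfold lin
    have : (monomial (Finsupp.single i 1) c : MvPolynomial (Fin 3) K) =
        ∑ j, C (if j = i then c else 0) * X j := by
      rw [Finset.sum_eq_single i]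
      · rw [if_pos rfl, X, C_mul_monomial, mul_one]
      · intro j _ hj
        rw [if_neg hj, C_0, zero_mul]
      · intro h'
        exact absurd (Finset.mem_univ _) h'
    rw [this, ← Finset.sum_sub_distrib]
    refine Finset.sum_congr rfl fun j _ => ?_
    rw [C_sub, sub_mul]
  rw [e, coeff_lin]
  refine Valuation.map_sum_le v fun j _ => ?_
  split_ifs with h1 h2
  · subst h1 h2
    unfold sz
    rw [if_pos rfl]
    exact hi
  · subst h1
    unfold sz
    rw [if_neg, sub_zero]
    · exact h j h2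
    · rw [wt_single, wt_single]
      intro h3
      apply h2
      ext
      omega
  · rw [map_zero]
    exact zero_le

theorem near_lin0 {v : Valuation K Γ} {ε : Γ} {x0 x1 x2 c : K} (hc : v c ≤ 1)
    (h0 : v (x0 - c) ≤ ε ^ 2) (h1 : v x1 ≤ ε) (h2 : v x2 ≤ ε) :
    Near v ε (lin ![x0, x1, x2]) (Finsupp.single 0 1) c := by
  refine near_lin hc ?_ h0
  intro j hj
  fin_cases j
  · exact absurd rfl hj
  · exact h1
  · exact h2

theorem near_lin1 {v : Valuation K Γ} {ε : Γ} {x0 x1 x2 c : K} (hc : v c ≤ 1)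
    (h1 : v (x1 - c) ≤ ε ^ 2) (h0 : v x0 ≤ ε) (h2 : v x2 ≤ ε) :
    Near v ε (lin ![x0, x1, x2]) (Finsupp.single 1 1) c := by
  refine near_lin hc ?_ h1
  intro j hj
  fin_cases j
  · exact h0
  · exact absurd rfl hj
  · exact h2

theorem near_lin2 {v : Valuation K Γ} {ε : Γ} {x0 x1 x2 c : K} (hc : v c ≤ 1)
    (h2 : v (x2 - c) ≤ ε ^ 2) (h0 : v x0 ≤ ε) (h1 : v x1 ≤ ε) :
    Near v ε (lin ![x0, x1, x2]) (Finsupp.single 2 1) c := by
  refine near_lin hc ?_ h2
  intro j hj
  fin_cases j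
  · exact h0
  · exact h1
  · exact absurd rfl hj

theorem sb_eq (G : Matrix (Fin 3) (Fin 3) K) :
    (sb G : MvPolynomial (Fin 3) K → MvPolynomial (Fin 3) K) = aeval fun i => lin (G i) := rfl

theorem val_two_mul (v : Valuation K Γ) (x : K) : v (2 * x) ≤ v x := by
  rw [two_mul]
  exact Valuation.map_add_le v le_rfl le_rfl

theorem inj_core {v : Valuation K Γ} {ε : Γ} (hε : ε < 1) (h3 : ε ^ 2 < v 3)
    {G H E E' : Matrix (Fin 3) (Fin 3) K} {s t a b m n : K} (hE : E * E' = 1)
    (hs : s = 1 ∨ s = -1) (ht : t = 1 ∨ t = -1) (ha : a ≠ 0) (hb : b ≠ 0) (hm : m ≠ 0)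
    (hn : n ≠ 0) (hG : E * G * E' = s • sym a 0 m a⁻¹) (hH : E * H * E' = t • sym b n 0 b⁻¹)
    (b1 : v (a / m) ≤ ε) (b2 : v (a * m)⁻¹ ≤ ε) (b3 : v (b / n) ≤ ε) (b4 : v (b * n)⁻¹ ≤ ε)
    (b5 : v m⁻¹ ≤ ε) (b6 : v n⁻¹ ≤ ε) : Function.Injective (TT G H) := by
  have hE' : E' * E = 1 := mul_eq_one_comm.1 hE
  set p := a / m with hp
  set q := (b * n)⁻¹ with hq
  set p' := (a * m)⁻¹ with hp'
  set q' := b / n with hq'
  set k := 1 - p * q with hk
  have hpq : v (p * q) ≤ ε ^ 2 := by
    rw [map_mul, sq]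
    exact mul_le_mul' b1 b4
  have hε2 : ε ^ 2 < 1 := by
    rw [sq]
    exact mul_lt_one_of_nonneg_of_lt_one_left zero_le hε hε.le
  have hε2' : ε ^ 2 ≤ ε := by
    rw [sq]
    exact mul_le_of_le_one_right' hε.le
  have hvk : v k = 1 := by
    have := Valuation.map_one_sub_of_lt v (x := p * q) (lt_of_le_of_lt hpq hε2)
    rw [hk]
    exact this
  have hk0 : k ≠ 0 := by
    intro h
    rw [h, map_zero] at hvk
    exact zero_ne_one hvk
  have hk1 : v (k - 1) ≤ ε ^ 2 := by
    have : k - 1 = -(p * q) := by rw [hk]; ring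
    rw [this, Valuation.map_neg]
    exact hpq
  set M1 : Matrix (Fin 3) (Fin 3) K := sym 1 (-p) (-q) 1 with hM1
  set M1' : Matrix (Fin 3) (Fin 3) K := sym k⁻¹ (p * k⁻¹) (q * k⁻¹) k⁻¹ with hM1'
  have hM : M1' * M1 = 1 := by
    rw [hM1', hM1, sym_mul]
    have e1 : k⁻¹ * 1 + p * k⁻¹ * -q = 1 := by
      field_simp
      rw [hk]
      ring
    have e2 : k⁻¹ * -p + p * k⁻¹ * 1 = 0 := by ring
    have e3 : q * k⁻¹ * 1 + k⁻¹ * -q = 0 := by ring
    have e4 : q * k⁻¹ * -p + k⁻¹ * 1 = 1 := by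
      field_simp
      rw [hk]
      ring
    rw [e1, e2, e3, e4, sym_one]
  have hA : M1 * (E * G * E') = s • sym 0 (-m⁻¹) (m * k) a⁻¹ := by
    rw [hG, hM1, Matrix.mul_smul, sym_mul]
    have e1 : 1 * a + -p * m = 0 := by rw [hp]; field_simp; ring
    have e2 : 1 * 0 + -p * a⁻¹ = -m⁻¹ := by rw [hp]; field_simp; ring
    have e3 : -q * a + 1 * m = m * k := by rw [hk, hp, hq]; field_simp; ring
    have e4 : -q * 0 + 1 * a⁻¹ = a⁻¹ := by ring
    rw [e1, e2, e3, e4]
  have hB : M1 * (E * H * E') = t • sym b (n * k) (-n⁻¹) 0 := by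
    rw [hH, hM1, Matrix.mul_smul, sym_mul]
    have e1 : 1 * b + -p * 0 = b := by ring
    have e2 : 1 * n + -p * b⁻¹ = n * k := by rw [hk, hp, hq]; field_simp; ring
    have e3 : -q * b + 1 * 0 = -n⁻¹ := by rw [hq]; field_simp; ring
    have e4 : -q * n + 1 * b⁻¹ = 0 := by rw [hq]; field_simp; ring
    rw [e1, e2, e3, e4]
  set M2 := M1 * (E * G * E') with hM2
  set M3 := M1 * (E * H * E') with hM3
  -- the rows
  have hvs : v s = 1 := val_sign hs
  have hvt : v t = 1 := val_sign ht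
  have tw : ∀ {x : K}, v x ≤ ε → v (2 * x) ≤ ε := fun h => (val_two_mul v _).trans h
  have sg : ∀ {x : K}, v x ≤ ε → v (s * x) ≤ ε := fun h => by rwa [map_mul, hvs, one_mul]
  have tg : ∀ {x : K}, v x ≤ ε → v (t * x) ≤ ε := fun h => by rwa [map_mul, hvt, one_mul]
  have kg : ∀ {x : K}, v x ≤ ε → v (k * x) ≤ ε := fun h => by rwa [map_mul, hvk, one_mul]
  have ng : ∀ {x : K}, v x ≤ ε → v (-x) ≤ ε := fun h => by rwa [Valuation.map_neg]
  have qg : ∀ {x : K}, v x ≤ ε → v (x ^ 2) ≤ ε := fun h => by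
    rw [map_pow, sq]
    exact (mul_le_mul' h h).trans (mul_le_of_le_one_right' hε.le)
  have kk : v (k ^ 2 - 1) ≤ ε ^ 2 := by
    have e : k ^ 2 - 1 = (k - 1) * (k + 1) := by ring
    rw [e, map_mul]
    have h1 : v (k + 1) ≤ 1 := Valuation.map_add_le v hvk.le (map_one v).le
    exact (mul_le_mul' hk1 h1).trans (mul_one _).le
  let l2 : Fin 3 → MvPolynomial (Fin 3) K := ![lin ![0, 0, s], lin ![0, -(s * k), -(s * p')],
    lin ![s * k ^ 2, 2 * (s * (k * p')), s * p' ^ 2]]
  let l3 : Fin 3 → MvPolynomial (Fin 3) K := ![lin ![t * q' ^ 2, 2 * (t * (k * q')), t * k ^ 2],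
    lin ![-(t * q'), -(t * k), 0], lin ![t, 0, 0]]
  have r0 : M1 0 = ![1, 2 * -p, p ^ 2] := by
    rw [hM1]; ext i; fin_cases i <;> simp [sym]
  have r1 : M1 1 = ![-q, 1 + p * q, -p] := by
    rw [hM1]; ext i; fin_cases i <;> simp [sym]
  have r2 : M1 2 = ![q ^ 2, 2 * -q, 1] := by
    rw [hM1]; ext i; fin_cases i <;> simp [sym]
  have hcol := col_of_near (v := v) hε hs ht hm hn b5 b6 (L1 := fun i => lin (M1 i))
    (L2 := fun i => lin (M2 i)) (L3 := fun i => lin (M3 i)) (l2 := l2) (l3 := l3)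
    (by
      simp only [r0]
      refine near_lin0 (map_one v).le ?_ (tw (ng b1)) (qg b1)
      rw [sub_self, map_zero]; exact zero_le)
    (by
      simp only [r1]
      refine near_lin1 (map_one v).le ?_ (ng b4) (ng b1)
      rw [add_sub_cancel_left]; exact hpq)
    (by
      simp only [r2]
      refine near_lin2 (map_one v).le ?_ (qg b4) (tw (ng b4))
      rw [sub_self, map_zero]; exact zero_le)
    (by
      refine near_lin2 hvs.le ?_ ?_ ?_
      · rw [sub_self, map_zero]; exact zero_le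
      · rw [map_zero]; exact zero_le
      · rw [map_zero]; exact zero_le)
    (by
      refine near_lin1 (by rw [Valuation.map_neg]; exact hvs.le) ?_ ?_ (ng (sg b2))
      · have e : -(s * k) - -s = -(s * (k - 1)) := by ring
        rw [e, Valuation.map_neg, map_mul, hvs, one_mul]
        exact hk1
      · rw [map_zero]; exact zero_le)
    (by
      refine near_lin0 hvs.le ?_ (tw (sg (kg b2))) (sg (qg b2))
      have e : s * k ^ 2 - s = s * (k ^ 2 - 1) := by ring
      rw [e, map_mul, hvs, one_mul]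
      exact kk)
    (by
      refine near_lin2 hvt.le ?_ (tg (qg b3)) (tw (tg (kg b3)))
      have e : t * k ^ 2 - t = t * (k ^ 2 - 1) := by ring
      rw [e, map_mul, hvt, one_mul]
      exact kk)
    (by
      refine near_lin1 (by rw [Valuation.map_neg]; exact hvt.le) ?_ (ng (tg b3)) ?_
      · have e : -(t * k) - -t = -(t * (k - 1)) := by ring
        rw [e, Valuation.map_neg, map_mul, hvt, one_mul]
        exact hk1
      · rw [map_zero]; exact zero_le)
    (by
      refine near_lin0 hvt.le ?_ ?_ ?_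
      · rw [sub_self, map_zero]; exact zero_le
      · rw [map_zero]; exact zero_le
      · rw [map_zero]; exact zero_le)
    (by
      change lin (M2 0) = C (m⁻¹ ^ 2) * lin ![0, 0, s]
      rw [← lin_smul, hA]
      congr 1
      ext i
      fin_cases i <;> simp [sym] <;> (try field_simp) <;> (try ring_nf) <;> (try simp))
    (by
      change lin (M2 1) = lin ![0, -(s * k), -(s * p')]
      rw [hA]
      congr 1
      ext i
      fin_cases i <;> simp [sym, hp'] <;> (try field_simp) <;> (try ring_nf) <;> (try simp))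
    (by
      change lin (M2 2) = C (m ^ 2) * lin ![s * k ^ 2, 2 * (s * (k * p')), s * p' ^ 2]
      rw [← lin_smul, hA]
      congr 1
      ext i
      fin_cases i <;> simp [sym, hp'] <;> (try field_simp) <;> (try ring_nf) <;> (try simp))
    (by
      change lin (M3 0) = C (n ^ 2) * lin ![t * q' ^ 2, 2 * (t * (k * q')), t * k ^ 2]
      rw [← lin_smul, hB]
      congr 1
      ext i
      fin_cases i <;> simp [sym, hq'] <;> (try field_simp) <;> (try ring_nf) <;> (try simp))
    (by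
      change lin (M3 1) = lin ![-(t * q'), -(t * k), 0]
      rw [hB]
      congr 1
      ext i
      fin_cases i <;> simp [sym, hq'] <;> (try field_simp) <;> (try ring_nf) <;> (try simp))
    (by
      change lin (M3 2) = C (n⁻¹ ^ 2) * lin ![t, 0, 0]
      rw [← lin_smul, hB]
      congr 1
      ext i
      fin_cases i <;> simp [sym] <;> (try field_simp) <;> (try ring_nf) <;> (try simp))
  have hinj := injective_of_col hε h3
    ((sb M1).toLinearMap + (sb M2).toLinearMap + (sb M3).toLinearMap) hcol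
  rw [injective_iff_map_eq_zero]
  intro Q hQ
  set P := sb (E' * M1') Q with hP
  have hPQ : sb (M1 * E) P = Q := by
    rw [hP, ← sb_mul]
    have : E' * M1' * (M1 * E) = 1 := by
      calc E' * M1' * (M1 * E) = E' * (M1' * M1) * E := by simp only [mul_assoc]
        _ = 1 := by rw [hM, mul_one, hE']
    rw [this, sb_one]
  have hP0 : P = 0 := by
    apply hinj
    change sb M1 P + sb M2 P + sb M3 P = 0
    have h1 : sb E' (TT G H Q) = sb M1 P + sb M2 P + sb M3 P := by
      have g1 : sb E' Q = sb (M1 * E * E') P := by rw [sb_mul (M1 * E) E', hPQ]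
      have g2 : sb E' (sb G Q) = sb (M1 * E * G * E') P := by
        rw [sb_mul (M1 * E * G) E', sb_mul (M1 * E) G, hPQ]
      have g3 : sb E' (sb H Q) = sb (M1 * E * H * E') P := by
        rw [sb_mul (M1 * E * H) E', sb_mul (M1 * E) H, hPQ]
      rw [TT_apply, map_add, map_add, g1, g2, g3]
      have f1 : M1 * E * E' = M1 := by rw [mul_assoc, hE, mul_one]
      have f2 : M1 * E * G * E' = M2 := by rw [hM2]; simp only [mul_assoc]
      have f3 : M1 * E * H * E' = M3 := by rw [hM3]; simp only [mul_assoc]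
      rw [f1, f2, f3]
    rw [← h1, hQ, map_zero]
  rw [← hPQ, hP0, map_zero]

end Lin

end Pool.Agent.Tri
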