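import Pool.Agent.Lib_MP_8c2fb0_tri.Val

/-!
# The triangle inequality at the places of the real numbers
-/

open MvPolynomial MeasureTheory

namespace Pool.Agent.Tri

open Pool.Agent.Sph

section Extend

variable {Γ : Type*} [LinearOrderedCommGroupWithZero Γ]

/-- A valuation of the real numbers extends to the complex numbers up to equivalence. -/
theorem exists_ext (v : Valuation ℝ Γ) : ∃ W : ValuationSubring ℂ,
    ∀ x y : ℝ, v x ≤ v y ↔ W.valuation (x : ℂ) ≤ W.valuation (y : ℂ) := by
  set V := v.valuationSubring with hV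
  obtain ⟨W, hW, hloc⟩ := IsLocalRing.exists_factor_valuationRing
    ((Complex.ofRealHom).comp V.subtype)
  refine ⟨W, ?_⟩
  have h1 : v.IsEquiv (W.valuation.comap Complex.ofRealHom) := by
    rw [Valuation.isEquiv_iff_val_le_one]
    intro x
    rw [Valuation.comap_apply, ValuationSubring.valuation_le_one_iff]
    constructor
    · intro hx
      exact hW ⟨x, hx⟩
    · intro hx
      by_contra hcon
      rw [not_le] at hcon
      have hx0 : x ≠ 0 := by
        rintro rfl
        rw [map_zero] at hcon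
        exact absurd hcon (not_lt.2 zero_le)
      have hinv : v x⁻¹ ≤ 1 := by
        rw [map_inv₀]
        exact inv_le_one_of_one_le₀ hcon.le
      have hu : IsUnit (((Complex.ofRealHom).comp V.subtype).codRestrict W.toSubring hW
          ⟨x⁻¹, hinv⟩) := by
        refine isUnit_iff_exists_inv.2 ⟨⟨(x : ℂ), hx⟩, ?_⟩
        apply Subtype.ext
        change ((x⁻¹ : ℝ) : ℂ) * (x : ℂ) = 1
        rw [← Complex.ofReal_mul, inv_mul_cancel₀ hx0, Complex.ofReal_one]
      have hu' := hloc.map_nonunit _ hu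
      obtain ⟨y, hy⟩ := isUnit_iff_exists_inv.1 hu'
      have hy' : x⁻¹ * (y : ℝ) = 1 := congrArg Subtype.val hy
      have hyx : (y : ℝ) = x := by
        calc (y : ℝ) = x * (x⁻¹ * y) := by rw [← mul_assoc, mul_inv_cancel₀ hx0, one_mul]
          _ = x := by rw [hy', mul_one]
      have hy2 : v (y : ℝ) ≤ 1 := y.2
      rw [hyx] at hy2
      exact absurd hcon (not_lt.2 hy2)
  intro x y
  exact h1 x y

/-- **The inequality.** -/
theorem val_le (v : Valuation ℝ Γ) {g h : Matrix (Fin 3) (Fin 3) ℝ}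
    (hg : g ∈ Matrix.orthogonalGroup (Fin 3) ℝ) (hh : h ∈ Matrix.orthogonalGroup (Fin 3) ℝ)
    {A : Set S2} (hA : AESplit g h A) :
    v (9 * (g.transpose * h).trace) ≤ max 1 (v g.trace) * max 1 (v h.trace) := by
  by_contra hcon
  rw [not_le] at hcon
  obtain ⟨W, hW⟩ := exists_ext v
  have hmax : ∀ x : ℝ, ∃ y : ℝ, max 1 (v x) = v y ∧
      max 1 (W.valuation (x : ℂ)) = W.valuation (y : ℂ) := by
    intro x
    rcases le_total 1 (v x) with h1 | h1
    · refine ⟨x, max_eq_right h1, max_eq_right ?_⟩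
      have := (hW 1 x).1 (by rwa [map_one])
      rwa [Complex.ofReal_one, map_one] at this
    · refine ⟨1, by rw [max_eq_left h1, map_one], ?_⟩
      have := (hW x 1).1 (by rwa [map_one])
      rw [Complex.ofReal_one, map_one] at this
      rw [max_eq_left this, Complex.ofReal_one, map_one]
  obtain ⟨x, hx1, hx2⟩ := hmax g.trace
  obtain ⟨y, hy1, hy2⟩ := hmax h.trace
  apply no_split hg hh ?_ A hA
  apply inj_of_val W.valuation hg hh
  rw [hx1, hy1, ← map_mul] at hcon
  rw [hx2, hy2, ← map_mul]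
  have h1 : ¬ (W.valuation ((9 * (g.transpose * h).trace : ℝ) : ℂ) ≤
      W.valuation ((x * y : ℝ) : ℂ)) := by
    rw [← hW]
    exact not_le.2 hcon
  rw [not_le] at h1
  push_cast at h1
  exact h1

end Extend

section Perm

theorem im_mul (g h : Matrix (Fin 3) (Fin 3) ℝ) (hh : h ∈ Matrix.orthogonalGroup (Fin 3) ℝ)
    (A : Set S2) : im (g * h) A = im g (im h A) := by
  ext x
  unfold im
  constructor
  · rintro ⟨a, ha, hax⟩
    refine ⟨sact ⟨h, hh⟩ a, ⟨a, ha, ?_⟩, ?_⟩
    · rw [coe_sact]
    · rw [coe_sact, ← act_mul]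
      exact hax
  · rintro ⟨b, ⟨a, ha, hab⟩, hbx⟩
    refine ⟨a, ha, ?_⟩
    rw [act_mul, hab, hbx]

theorem im_one (A : Set S2) : im 1 A = A := by
  ext x
  unfold im
  constructor
  · rintro ⟨a, ha, hax⟩
    rw [act_one] at hax
    rwa [← Subtype.ext hax]
  · intro hx
    exact ⟨x, hx, act_one _⟩

theorem transpose_mem {g : Matrix (Fin 3) (Fin 3) ℝ}
    (hg : g ∈ Matrix.orthogonalGroup (Fin 3) ℝ) :
    g.transpose ∈ Matrix.orthogonalGroup (Fin 3) ℝ := by
  have h : g.transpose * g = 1 := (Matrix.mem_orthogonalGroup_iff' (Fin 3) ℝ).1 hg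
  rw [Matrix.mem_orthogonalGroup_iff, Matrix.transpose_transpose]
  exact h

theorem null_im {g : Matrix (Fin 3) (Fin 3) ℝ} (hg : g ∈ Matrix.orthogonalGroup (Fin 3) ℝ)
    {A : Set S2} (hA : NullMeasurableSet A surf) : NullMeasurableSet (im g A) surf := by
  have h1 : im g A = (sact ⟨g, hg⟩).symm ⁻¹' A := by
    ext x
    exact mem_im ⟨g, hg⟩ A x
  rw [h1]
  have h2 : MeasurePreserving (sact ⟨g, hg⟩).symm surf surf :=
    (sact_measurePreserving ⟨g, hg⟩).symm (sact ⟨g, hg⟩).toMeasurableEquiv
  exact hA.preimage h2.quasiMeasurePreserving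

theorem split_swap {g h : Matrix (Fin 3) (Fin 3) ℝ} {A : Set S2} (hA : AESplit g h A) :
    AESplit h g A := by
  refine ⟨hA.1, ?_⟩
  filter_upwards [hA.2] with x hx
  unfold One3 at *
  tauto

theorem split_rot {g h : Matrix (Fin 3) (Fin 3) ℝ} (hg : g ∈ Matrix.orthogonalGroup (Fin 3) ℝ)
    {A : Set S2} (hA : AESplit g h A) : AESplit g.transpose (h * g.transpose) (im g A) := by
  have h1 : g.transpose * g = 1 := (Matrix.mem_orthogonalGroup_iff' (Fin 3) ℝ).1 hg
  have e1 : im g.transpose (im g A) = A := by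
    rw [← im_mul _ _ hg, h1, im_one]
  have e2 : im (h * g.transpose) (im g A) = im h A := by
    rw [← im_mul _ _ hg, mul_assoc, h1, mul_one]
  refine ⟨null_im hg hA.1, ?_⟩
  rw [e1, e2]
  filter_upwards [hA.2] with x hx
  unfold One3 at *
  tauto

variable {Γ : Type*} [LinearOrderedCommGroupWithZero Γ]

theorem val_le' (v : Valuation ℝ Γ) {g h : Matrix (Fin 3) (Fin 3) ℝ}
    (hg : g ∈ Matrix.orthogonalGroup (Fin 3) ℝ) (hh : h ∈ Matrix.orthogonalGroup (Fin 3) ℝ)
    {A : Set S2} (hA : AESplit g h A) :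
    v (9 * h.trace) ≤ max 1 (v g.trace) * max 1 (v (g.transpose * h).trace) := by
  have h1 : g.transpose * g = 1 := (Matrix.mem_orthogonalGroup_iff' (Fin 3) ℝ).1 hg
  have h2 := val_le v (transpose_mem hg) (mul_mem hh (transpose_mem hg)) (split_rot hg hA)
  have e1 : (g.transpose.transpose * (h * g.transpose)).trace = h.trace := by
    rw [Matrix.transpose_transpose, Matrix.trace_mul_comm, mul_assoc, h1, mul_one]
  have e2 : (h * g.transpose).trace = (g.transpose * h).trace := Matrix.trace_mul_comm _ _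
  rwa [e1, Matrix.trace_transpose, e2] at h2

theorem val_le'' (v : Valuation ℝ Γ) {g h : Matrix (Fin 3) (Fin 3) ℝ}
    (hg : g ∈ Matrix.orthogonalGroup (Fin 3) ℝ) (hh : h ∈ Matrix.orthogonalGroup (Fin 3) ℝ)
    {A : Set S2} (hA : AESplit g h A) :
    v (9 * g.trace) ≤ max 1 (v h.trace) * max 1 (v (g.transpose * h).trace) := by
  have h2 := val_le' v hh hg (split_swap hA)
  have e : (h.transpose * g).trace = (g.transpose * h).trace := by
    rw [← Matrix.trace_transpose, Matrix.transpose_mul, Matrix.transpose_transpose]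
  rwa [e] at h2

end Perm

section Integral

/-- An element of the real numbers which satisfies the inequality at all places is integral. -/
theorem integral_of_val {x y z : ℝ}
    (h : ∀ V : ValuationSubring ℝ, V.valuation z ≤ max 1 (V.valuation x) * max 1 (V.valuation y)) :
    IsIntegral (Subring.closure {x, y}) z := by
  have h1 : z ∈ (integralClosure (Subring.closure {x, y}) ℝ).toSubring := by
    rw [← iInf_valuationSubring_superset, Subring.mem_iInf]
    intro V
    have hx : x ∈ V.1 := V.2 (Set.mem_insert _ _)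
    have hy : y ∈ V.1 := V.2 (Set.mem_insert_of_mem _ rfl)
    rw [← ValuationSubring.valuation_le_one_iff] at hx hy
    have h2 := h V.1
    rw [max_eq_left hx, max_eq_left hy, one_mul, ValuationSubring.valuation_le_one_iff] at h2
    exact h2
  exact h1

end Integral

end Pool.Agent.Tri
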