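import Pool.Agent.Lib_MP_8c2fb0_tri.Low

/-!
# Places at which the pair becomes simultaneously triangular
-/

open MvPolynomial

namespace Pool.Agent.Tri

open Pool.Agent.Sph

/-- No measurable splitting if the reductions at some place are simultaneously triangular and
`1 + a ^ n + b ^ n` does not vanish for the diagonals `a`, `b` and all exponents `n`. -/
theorem no_split_of_triangular {R k : Type*} [CommRing R] [Field k] {i : R →+* ℂ}
    (hi : Function.Injective i) (φ : R →+* k) {G H : Matrix (Fin 3) (Fin 3) R}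
    {B B' : Matrix (Fin 3) (Fin 3) ℂ} (hB : B * B' = 1) {g h : Matrix (Fin 3) (Fin 3) ℝ}
    (hg : g ∈ Matrix.orthogonalGroup (Fin 3) ℝ) (hh : h ∈ Matrix.orthogonalGroup (Fin 3) ℝ)
    (hgG : g.map Complex.ofRealHom = B * G.map i * B')
    (hhH : h.map Complex.ofRealHom = B * H.map i * B')
    {C C' : Matrix (Fin 3) (Fin 3) k} (hC : C * C' = 1)
    (hG : ∀ r c, c < r → (C * G.map φ * C') r c = 0)
    (hH : ∀ r c, c < r → (C * H.map φ * C') r c = 0)
    (hn : ∀ n : Fin 3 → ℕ, 1 + ∏ r, (C * G.map φ * C') r r ^ n r +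
      ∏ r, (C * H.map φ * C') r r ^ n r ≠ 0) (A : Set S2) : ¬ AESplit g h A := by
  refine no_split_of_place hi φ hB hg hh hgG hhH ?_ A
  have h1 : Function.Injective (TT (C * G.map φ * C') (C * H.map φ * C')) := by
    apply injective_of_triangular ![2, 1, 0]
    · intro r c hrc h0
      have h2 : ¬ c < r := fun h3 => h0 (hG r c h3)
      fin_cases r <;> fin_cases c <;> simp at hrc h2 ⊢
    · intro r c hrc h0
      have h2 : ¬ c < r := fun h3 => h0 (hH r c h3)
      fin_cases r <;> fin_cases c <;> simp at hrc h2 ⊢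
    · intro a b c
      have := hn ![a, b, c]
      simp only [Fin.prod_univ_three] at this
      simpa using this
  have hC' : C' * C = 1 := mul_eq_one_comm.1 hC
  have h2 := TT_conj hC' h1
  have e : ∀ M : Matrix (Fin 3) (Fin 3) k, C' * (C * M * C') * C = M := by
    intro M
    calc C' * (C * M * C') * C = (C' * C) * M * (C' * C) := by simp only [mul_assoc]
      _ = M := by rw [hC', one_mul, mul_one]
  rwa [e, e] at h2

section Unit

variable {k : Type*} [Field k] {Q : Type*} [Group Q]

/-- the (anti)representation on polynomials -/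
noncomputable def opRep (ρ : Q →* Matrix (Fin 3) (Fin 3) k) :
    Q →* (Module.End k (MvPolynomial (Fin 3) k))ᵐᵒᵖ where
  toFun q := MulOpposite.op (sb (ρ q)).toLinearMap
  map_one' := by
    rw [map_one]
    congr 1
    ext1 P
    exact LinearMap.ext fun x => by simp [sb_one]
  map_mul' q r := by
    rw [map_mul, ← MulOpposite.op_mul]
    congr 1
    exact LinearMap.ext fun P => sb_mul (ρ q) (ρ r) P

/-- If the two matrices are the images of `a`, `b` under a homomorphism from a group and
`1 + a + b` has a right inverse in the group algebra, then `TT` is injective. -/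
theorem injective_of_unit (ρ : Q →* Matrix (Fin 3) (Fin 3) k) (a b : Q) (u : MonoidAlgebra k Q)
    (hu : (1 + MonoidAlgebra.of k Q a + MonoidAlgebra.of k Q b) * u = 1) :
    Function.Injective (TT (ρ a) (ρ b)) := by
  set Φ := MonoidAlgebra.lift k (Module.End k (MvPolynomial (Fin 3) k))ᵐᵒᵖ Q (opRep ρ) with hΦ
  have h1 := congrArg Φ hu
  rw [map_mul, map_add, map_add, map_one] at h1
  have ha : ∀ q, Φ (MonoidAlgebra.of k Q q) = MulOpposite.op (sb (ρ q)).toLinearMap := by
    intro q
    rw [hΦ, MonoidAlgebra.lift_of]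
    rfl
  rw [ha, ha] at h1
  have h2 := congrArg MulOpposite.unop h1
  rw [MulOpposite.unop_mul, MulOpposite.unop_one] at h2
  have h3 : MulOpposite.unop (1 + MulOpposite.op (sb (ρ a)).toLinearMap +
      MulOpposite.op (sb (ρ b)).toLinearMap) = TT (ρ a) (ρ b) := rfl
  rw [h3] at h2
  intro P P' hP
  have h4 := congrArg (fun f : Module.End k (MvPolynomial (Fin 3) k) => f P) h2
  have h5 := congrArg (fun f : Module.End k (MvPolynomial (Fin 3) k) => f P') h2
  simp only [Module.End.mul_apply, Module.End.one_apply] at h4 h5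
  rw [← h4, ← h5, hP]

end Unit

end Pool.Agent.Tri
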