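import Pool.Agent.Lib_MP_8c2fb0_tri.Inj

/-!
# Injectivity of `TT` from the valuations of the traces
-/

open MvPolynomial

namespace Pool.Agent.Tri

open Pool.Agent.Sph

section Traces

theorem trace_conj {E E' G : Matrix (Fin 3) (Fin 3) ℂ} (hE : E * E' = 1) :
    (E * G * E').trace = G.trace := by
  rw [Matrix.trace_mul_cycle, mul_eq_one_comm.1 hE, one_mul]

theorem trace_map (G : Matrix (Fin 3) (Fin 3) ℝ) :
    (G.map Complex.ofRealHom).trace = (G.trace : ℂ) := by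
  simp [Matrix.trace, Fin.sum_univ_three]

variable {g h : Matrix (Fin 3) (Fin 3) ℝ} {E E' : Matrix (Fin 3) (Fin 3) ℂ} {s t a b m n : ℂ}

theorem trace_low (hE : E * E' = 1) (ha : a ≠ 0)
    (hG : E * g.map Complex.ofRealHom * E' = s • sym a 0 m a⁻¹) :
    (g.trace : ℂ) = s * (a ^ 2 + 1 + a⁻¹ ^ 2) := by
  rw [← trace_map, ← trace_conj hE, hG, Matrix.trace_smul, trace_sym, smul_eq_mul,
    mul_inv_cancel₀ ha, zero_mul, add_zero]

theorem trace_up (hE : E * E' = 1) (hb : b ≠ 0)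
    (hH : E * h.map Complex.ofRealHom * E' = t • sym b n 0 b⁻¹) :
    (h.trace : ℂ) = t * (b ^ 2 + 1 + b⁻¹ ^ 2) := by
  rw [← trace_map, ← trace_conj hE, hH, Matrix.trace_smul, trace_sym, smul_eq_mul,
    mul_inv_cancel₀ hb, mul_zero, add_zero]

theorem trace_rel (hg : g ∈ Matrix.orthogonalGroup (Fin 3) ℝ) (hE : E * E' = 1)
    (hs : s * s = 1) (ha : a ≠ 0) (hb : b ≠ 0)
    (hG : E * g.map Complex.ofRealHom * E' = s • sym a 0 m a⁻¹)
    (hH : E * h.map Complex.ofRealHom * E' = t • sym b n 0 b⁻¹) :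
    ((g.transpose * h).trace : ℂ) = s * t * ((a⁻¹ * b + a * b⁻¹ - m * n) ^ 2 - 1) := by
  have hE' : E' * E = 1 := mul_eq_one_comm.1 hE
  have h1 : g.transpose * g = 1 := (Matrix.mem_orthogonalGroup_iff' (Fin 3) ℝ).1 hg
  have h2 : (g.transpose.map Complex.ofRealHom) * g.map Complex.ofRealHom = 1 := by
    rw [← Matrix.map_mul, h1]
    simp
  have e1 : (E * g.transpose.map Complex.ofRealHom * E') * (E * g.map Complex.ofRealHom * E') =
      1 := by
    calc (E * g.transpose.map Complex.ofRealHom * E') * (E * g.map Complex.ofRealHom * E') =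
        E * g.transpose.map Complex.ofRealHom * (E' * E) * g.map Complex.ofRealHom * E' := by
          simp only [mul_assoc]
      _ = E * (g.transpose.map Complex.ofRealHom * g.map Complex.ofRealHom) * E' := by
          rw [hE', mul_one]; simp only [mul_assoc]
      _ = 1 := by rw [h2, mul_one, hE]
  have e2 : (s • sym a 0 m a⁻¹) * (s • sym a⁻¹ 0 (-m) a) = 1 := by
    rw [smul_mul_smul_comm, hs, one_smul, sym_mul]
    have f1 : a * a⁻¹ + 0 * -m = 1 := by rw [mul_inv_cancel₀ ha]; ring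
    have f2 : a * 0 + 0 * a = 0 := by ring
    have f3 : m * a⁻¹ + a⁻¹ * -m = 0 := by ring
    have f4 : m * 0 + a⁻¹ * a = 1 := by rw [inv_mul_cancel₀ ha]; ring
    rw [f1, f2, f3, f4, sym_one]
  have e3 : E * g.transpose.map Complex.ofRealHom * E' = s • sym a⁻¹ 0 (-m) a := by
    rw [hG] at e1
    calc E * g.transpose.map Complex.ofRealHom * E' = (E * g.transpose.map Complex.ofRealHom * E') *
          ((s • sym a 0 m a⁻¹) * (s • sym a⁻¹ 0 (-m) a)) := by rw [e2, mul_one]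
      _ = s • sym a⁻¹ 0 (-m) a := by rw [← mul_assoc, e1, one_mul]
  have e4 : E * (g.transpose * h).map Complex.ofRealHom * E' =
      (s • sym a⁻¹ 0 (-m) a) * (t • sym b n 0 b⁻¹) := by
    rw [← e3, ← hH, Matrix.map_mul]
    calc E * (g.transpose.map Complex.ofRealHom * h.map Complex.ofRealHom) * E' =
        E * g.transpose.map Complex.ofRealHom * 1 * h.map Complex.ofRealHom * E' := by
          rw [mul_one]; simp only [mul_assoc]
      _ = _ := by rw [← hE']; simp only [mul_assoc]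
  rw [← trace_map, ← trace_conj hE, e4, smul_mul_smul_comm, sym_mul, Matrix.trace_smul,
    trace_sym, smul_eq_mul]
  have f1 : a⁻¹ * a = 1 := inv_mul_cancel₀ ha
  have f2 : b⁻¹ * b = 1 := inv_mul_cancel₀ hb
  linear_combination (-s * t * (b⁻¹ * b)) * f1 - s * t * f2

end Traces

section Big

variable {K Γ : Type*} [Field K] [LinearOrderedCommGroupWithZero Γ]

theorem big_aux (v : Valuation K Γ) {a s : K} (hs : s = 1 ∨ s = -1)
    (h1 : 1 ≤ v a) : v a⁻¹ ≤ v a ∧ v a ^ 2 ≤ max 1 (v (s * (a ^ 2 + 1 + a⁻¹ ^ 2))) := by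
  have h2 : v a⁻¹ ≤ 1 := by
    rw [map_inv₀]
    exact inv_le_one_of_one_le₀ h1
  refine ⟨h2.trans h1, ?_⟩
  rcases h1.eq_or_lt with h3 | h3
  · rw [← h3, one_pow]
    exact le_max_left _ _
  · refine le_trans (le_of_eq ?_) (le_max_right _ _)
    have h4 : v (1 + a⁻¹ ^ 2) < v (a ^ 2) := by
      refine lt_of_le_of_lt (Valuation.map_add_le v (map_one v).le ?_) (?_ : 1 < v (a ^ 2))
      · rw [map_pow]
        exact pow_le_one₀ zero_le h2
      · rw [map_pow]
        exact one_lt_pow₀ h3 two_ne_zero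
    rw [map_mul, val_sign hs, one_mul, add_assoc, Valuation.map_add_eq_of_lt_left v h4, map_pow]

theorem big (v : Valuation K Γ) {a s : K} (ha : a ≠ 0) (hs : s = 1 ∨ s = -1) :
    ∃ c, c ≠ 0 ∧ v a ≤ v c ∧ v a⁻¹ ≤ v c ∧ 1 ≤ v c ∧
      v c ^ 2 ≤ max 1 (v (s * (a ^ 2 + 1 + a⁻¹ ^ 2))) := by
  rcases le_total 1 (v a) with h1 | h1
  · obtain ⟨h2, h3⟩ := big_aux v hs h1
    exact ⟨a, ha, le_rfl, h2, h1, h3⟩
  · have h1' : 1 ≤ v a⁻¹ := by
      rw [map_inv₀]
      exact (one_le_inv₀ (zero_lt_iff.2 ((Valuation.ne_zero_iff v).2 ha))).2 h1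
    obtain ⟨h2, h3⟩ := big_aux v hs h1'
    rw [inv_inv] at h2 h3
    refine ⟨a⁻¹, inv_ne_zero ha, h2, le_rfl, h1', ?_⟩
    have : s * (a⁻¹ ^ 2 + 1 + a ^ 2) = s * (a ^ 2 + 1 + a⁻¹ ^ 2) := by ring
    rwa [this] at h3

end Big

section Main

variable {Γ : Type*} [LinearOrderedCommGroupWithZero Γ]

theorem inj_of_val (v : Valuation ℂ Γ) {g h : Matrix (Fin 3) (Fin 3) ℝ}
    (hg : g ∈ Matrix.orthogonalGroup (Fin 3) ℝ) (hh : h ∈ Matrix.orthogonalGroup (Fin 3) ℝ)
    (hv : max 1 (v (g.trace : ℂ)) * max 1 (v (h.trace : ℂ)) <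
      v (9 * ((g.transpose * h).trace : ℂ))) : Function.Injective (TT g h) := by
  obtain ⟨E, E', s, t, a, b, m, n, hE, hs, ht, ha, hb, hG, hH⟩ := normal_form hg hh
  have hss : s * s = 1 := by rcases hs with rfl | rfl <;> norm_num
  have hvs : v s = 1 := val_sign hs
  have hvt : v t = 1 := val_sign ht
  rw [trace_low hE ha hG, trace_up hE hb hH, trace_rel hg hE hss ha hb hG hH] at hv
  obtain ⟨c, hc0, hc1, hc2, hc3, hc4⟩ := big v ha hs
  obtain ⟨d, hd0, hd1, hd2, hd3, hd4⟩ := big v hb ht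
  set z := a⁻¹ * b + a * b⁻¹ - m * n with hz
  have hcd : 1 ≤ v c * v d := one_le_mul hc3 hd3
  have key : (v c * v d) ^ 2 < v 9 * v (z ^ 2 - 1) := by
    rw [mul_pow]
    refine lt_of_le_of_lt (mul_le_mul' hc4 hd4) (lt_of_lt_of_le hv (le_of_eq ?_))
    rw [map_mul, map_mul, map_mul, hvs, hvt, one_mul, one_mul]
  have h9 : v (9 : ℂ) = v 3 ^ 2 := by
    rw [← map_pow]
    norm_num
  have h31 : v (3 : ℂ) ≤ 1 := three_le v
  have hz1 : 1 < v z := by
    by_contra hcon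
    rw [not_lt] at hcon
    have h1 : v (z ^ 2 - 1) ≤ 1 := by
      refine Valuation.map_sub_le v ?_ (map_one v).le
      rw [map_pow]
      exact pow_le_one₀ zero_le hcon
    have h2 : v (9 : ℂ) * v (z ^ 2 - 1) ≤ 1 := by
      rw [h9]
      exact mul_le_one' (pow_le_one₀ zero_le h31) h1
    have h3 : 1 ≤ (v c * v d) ^ 2 := one_le_pow₀ hcd
    exact absurd (lt_of_lt_of_le key h2) (not_lt.2 h3)
  have hz2 : v (z ^ 2 - 1) = v z ^ 2 := by
    have h1 : v (1 : ℂ) < v (z ^ 2) := by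
      rw [map_one, map_pow]
      exact one_lt_pow₀ hz1 two_ne_zero
    rw [Valuation.map_sub_eq_of_lt_left v h1, map_pow]
  rw [hz2, h9, ← mul_pow] at key
  have key2 : v c * v d < v 3 * v z := lt_of_pow_lt_pow_left₀ 2 zero_le key
  have key3 : v c * v d < v z := lt_of_lt_of_le key2 (mul_le_of_le_one_left' h31)
  have hmn : v (m * n) = v z := by
    have h1 : m * n = (a⁻¹ * b + a * b⁻¹) - z := by rw [hz]; ring
    have h2 : v (a⁻¹ * b + a * b⁻¹) < v z := by
      refine lt_of_le_of_lt (Valuation.map_add_le v ?_ ?_) key3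
      · rw [map_mul]; exact mul_le_mul' hc2 hd1
      · rw [map_mul]; exact mul_le_mul' hc1 hd2
    rw [h1, Valuation.map_sub_eq_of_lt_right v h2]
  have hz0 : v z ≠ 0 := (lt_trans zero_lt_one hz1).ne'
  have hmn0 : m * n ≠ 0 := by
    intro h0
    rw [h0, map_zero] at hmn
    exact hz0 hmn.symm
  have hm0 : m ≠ 0 := left_ne_zero_of_mul hmn0
  have hn0 : n ≠ 0 := right_ne_zero_of_mul hmn0
  obtain ⟨e, he⟩ := IsAlgClosed.exists_pow_nat_eq (c * d / (m * n)) (n := 2) (by norm_num)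
  have he0 : e ≠ 0 := by
    rintro rfl
    have h1 : c * d / (m * n) ≠ 0 := div_ne_zero (mul_ne_zero hc0 hd0) hmn0
    apply h1
    rw [← he]
    norm_num
  have hve : v e ^ 2 * v z = v c * v d := by
    rw [← hmn, ← map_pow, he, ← map_mul, ← map_mul, div_mul_cancel₀ _ hmn0]
  have hε3 : v e ^ 2 < v 3 := by
    rw [← hve] at key2
    exact lt_of_mul_lt_mul_right key2 zero_le
  have hε : v e < 1 := by
    have h1 : v e ^ 2 < 1 ^ 2 := by rw [one_pow]; exact lt_of_lt_of_le hε3 h31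
    exact lt_of_pow_lt_pow_left₀ 2 zero_le h1
  obtain ⟨ρ, hρ⟩ := IsAlgClosed.exists_pow_nat_eq (m * e / c) (n := 2) (by norm_num)
  have hρ0 : ρ ≠ 0 := by
    rintro rfl
    have h1 : m * e / c ≠ 0 := div_ne_zero (mul_ne_zero hm0 he0) hc0
    apply h1
    rw [← hρ]
    norm_num
  have hD : sym ρ 0 0 ρ⁻¹ * sym ρ⁻¹ 0 0 ρ = 1 := by
    rw [sym_mul]
    have f1 : ρ * ρ⁻¹ + 0 * 0 = 1 := by rw [mul_inv_cancel₀ hρ0]; ring
    have f2 : ρ * 0 + 0 * ρ = 0 := by ring
    have f3 : 0 * ρ⁻¹ + ρ⁻¹ * 0 = 0 := by ring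
    have f4 : 0 * 0 + ρ⁻¹ * ρ = 1 := by rw [inv_mul_cancel₀ hρ0]; ring
    rw [f1, f2, f3, f4, sym_one]
  have hE2 : (sym ρ 0 0 ρ⁻¹ * E) * (E' * sym ρ⁻¹ 0 0 ρ) = 1 := by
    calc (sym ρ 0 0 ρ⁻¹ * E) * (E' * sym ρ⁻¹ 0 0 ρ) = sym ρ 0 0 ρ⁻¹ * (E * E') * sym ρ⁻¹ 0 0 ρ := by
          simp only [mul_assoc]
      _ = 1 := by rw [hE, mul_one, hD]
  have hρm : m * ρ⁻¹ ^ 2 = c / e := by
    rw [inv_pow, hρ]
    field_simp
  have hρn : n * ρ ^ 2 = d / e := by
    rw [hρ]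
    field_simp
    rw [he]
    field_simp
  have hG2 : (sym ρ 0 0 ρ⁻¹ * E) * g.map Complex.ofRealHom * (E' * sym ρ⁻¹ 0 0 ρ) =
      s • sym a 0 (c / e) a⁻¹ := by
    calc (sym ρ 0 0 ρ⁻¹ * E) * g.map Complex.ofRealHom * (E' * sym ρ⁻¹ 0 0 ρ) =
        sym ρ 0 0 ρ⁻¹ * (E * g.map Complex.ofRealHom * E') * sym ρ⁻¹ 0 0 ρ := by
          simp only [mul_assoc]
      _ = s • sym a 0 (c / e) a⁻¹ := by
          rw [hG, Matrix.mul_smul, Matrix.smul_mul, sym_mul, sym_mul, ← hρm]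
          congr 2 <;> field_simp <;> ring
  have hH2 : (sym ρ 0 0 ρ⁻¹ * E) * h.map Complex.ofRealHom * (E' * sym ρ⁻¹ 0 0 ρ) =
      t • sym b (d / e) 0 b⁻¹ := by
    calc (sym ρ 0 0 ρ⁻¹ * E) * h.map Complex.ofRealHom * (E' * sym ρ⁻¹ 0 0 ρ) =
        sym ρ 0 0 ρ⁻¹ * (E * h.map Complex.ofRealHom * E') * sym ρ⁻¹ 0 0 ρ := by
          simp only [mul_assoc]
      _ = t • sym b (d / e) 0 b⁻¹ := by
          rw [hH, Matrix.mul_smul, Matrix.smul_mul, sym_mul, sym_mul, ← hρn]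
          congr 2 <;> field_simp <;> ring
  have bd : ∀ {x y : ℂ}, v x ≤ v y → v (x / y * e) ≤ v e := by
    intro x y hxy
    rw [map_mul, map_div₀]
    exact mul_le_of_le_one_left' (div_le_one_of_le₀ hxy zero_le)
  have hinj := inj_core (v := v) hε hε3 hE2 hs ht ha hb (div_ne_zero hc0 he0)
    (div_ne_zero hd0 he0) hG2 hH2
    (by
      have : a / (c / e) = a / c * e := by field_simp
      rw [this]; exact bd hc1)
    (by
      have : (a * (c / e))⁻¹ = a⁻¹ / c * e := by field_simp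
      rw [this]; exact bd hc2)
    (by
      have : b / (d / e) = b / d * e := by field_simp
      rw [this]; exact bd hd1)
    (by
      have : (b * (d / e))⁻¹ = b⁻¹ / d * e := by field_simp
      rw [this]; exact bd hd2)
    (by
      have : (c / e)⁻¹ = 1 / c * e := by field_simp
      rw [this]; exact bd (by rwa [map_one]))
    (by
      have : (d / e)⁻¹ = 1 / d * e := by field_simp
      rw [this]; exact bd (by rwa [map_one]))
  rw [injective_iff_map_eq_zero] at hinj ⊢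
  intro P hP
  apply MvPolynomial.map_injective Complex.ofRealHom Complex.ofReal_injective
  rw [map_zero]
  apply hinj
  rw [← map_TT, hP, map_zero]

end Main

end Pool.Agent.Tri
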